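import Pool.Agent.Q78.CycF.Final

/-! The contradiction for a lift, third part. -/

namespace Q78.CycF

open Q78.PCB Q78.Stab Topology Set Filter

universe u

variable {Y : Type u} {G : Subgroup (Equiv.Perm S)} {θ : Equiv.Perm S → Equiv.Perm (S ⊕ Y)}
  {α : S}

/-- the backward orbit of `n α` -/
theorem Std.back (h : Std Y G θ α) {N : ℤ} (hN : 0 < N) (hN' : ∀ n, N ≤ |n| →
    θ (tr α) (X Y α n) = X Y α (n + 1) ∧ θ PCB.refl (X Y α n) = X Y α (-n)) {n : ℤ} (hn : N ≤ n) :
    ∃ M : ℤ, ∀ m, M ≤ m → θ (tr ((-m) • α)) (X Y α n) = X Y α (n - m) := by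
  set y : ℤ → S ⊕ Y := fun m => θ (tr ((-m) • α)) (X Y α n) with hy
  have hyinj : ∀ i j : ℤ, i < j → y i ≠ y j := by
    intro i j hij heq
    have h1 : θ (tr (j • α)) (y i) = θ (tr (j • α)) (y j) := by rw [heq]
    rw [hy] at h1
    simp only at h1
    rw [h.tr_add, h.tr_add, add_neg_cancel, h.tr_zero] at h1
    have h2 : θ (tr (((n + (j - i)) - n) • α)) (X Y α n) = X Y α (n + (j - i)) :=
      h.shift' hN hN' hn (by omega)
    have e : j + -i = n + (j - i) - n := by ring
    rw [e, h2] at h1
    have := X_inj h.ord h1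
    omega
  have hyinj' : Function.Injective y := by
    intro i j hij
    rcases lt_trichotomy i j with h1 | h1 | h1
    · exact absurd hij (hyinj i j h1)
    · exact h1
    · exact absurd hij.symm (hyinj j i h1)
  have hstep : ∀ m, y (m + 1) = θ (tr ((-1 : ℤ) • α)) (y m) := by
    intro m
    rw [hy]
    simp only
    rw [h.tr_add]
    have e : -(m + 1) = -1 + -m := by ring
    rw [e]
  obtain ⟨M0, hM0, hM0'⟩ := finite_bound
    ((h.setup.near _ (h.tr_mem (-1))).preimage (f := y) hyinj'.injOn)
  have hstep' : ∀ m, M0 ≤ m → y (m + 1) = xt Y (tr ((-1 : ℤ) • α)) (y m) := by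
    intro m hm
    have h1 := hM0' m (by rw [abs_of_nonneg (by omega)]; exact hm)
    simp only [Set.mem_preimage, Set.mem_ofPred_eq, not_not] at h1
    rw [hstep, h1]
  obtain ⟨w, hw⟩ : ∃ w : S, y M0 = Sum.inl w := by
    rcases hyM : y M0 with w | v
    · exact ⟨w, rfl⟩
    · exfalso
      have h1 := hstep' M0 le_rfl
      rw [hyM, xt_inr, ← hyM] at h1
      have := hyinj' h1
      omega
  have hform : ∀ i : ℕ, y (M0 + i) = Sum.inl (w - (i : ℤ) • α) := by
    intro i
    induction i with
    | zero => rw [Int.natCast_zero, add_zero, zero_smul, sub_zero]; exact hw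
    | succ i ih =>
      have e : M0 + ((i + 1 : ℕ) : ℤ) = (M0 + i) + 1 := by push_cast; ring
      rw [e, hstep' _ (by omega), ih, xt_inl, tr_apply]
      congr 1
      push_cast
      rw [add_smul, neg_smul, one_smul]
      abel
  set z : S := w + M0 • α with hz
  have hform' : ∀ m, M0 ≤ m → y m = Sum.inl (z - m • α) := by
    intro m hm
    obtain ⟨i, hi⟩ := Int.eq_ofNat_of_zero_le (show 0 ≤ m - M0 by omega)
    have e : m = M0 + (i : ℤ) := by omega
    rw [e, hform i, hz]
    congr 1
    rw [add_smul]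
    abel
  -- the location is right
  have hzn : z = n • α := by
    by_contra hne
    have hne' : z - n • α ≠ 0 := sub_ne_zero.2 hne
    set u := rep (z - n • α) with hu
    have u0 : 0 < u := lt_of_le_of_ne (rep_nonneg _) (fun h' => hne' (rep_eq_zero.1 h'.symm))
    have u1 : u < 1 := rep_lt _
    have hzu : z = n • α + (u : S) := by rw [hu, coe_rep]; abel
    set ε := min u (1 - u) / 4 with hε
    have hε0 : 0 < ε := by
      have : 0 < min u (1 - u) := lt_min u0 (by linarith)
      positivity
    have hε1 : 4 * ε ≤ u := by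
      have := min_le_left u (1 - u)
      linarith
    have hε2 : 4 * ε ≤ 1 - u := by
      have := min_le_right u (1 - u)
      linarith
    obtain ⟨r, r0, r1, hr⟩ := exists_len h.ord (show 0 < ε / 3 by positivity)
    have r3 : 3 * r ≤ 1 := by linarith
    obtain ⟨F, hF, hF'⟩ := h.mvpt r0 r3 hr
    obtain ⟨M1, hM1, hM1'⟩ := finite_bound (hF.preimage (f := y) hyinj'.injOn)
    have hopen : IsOpen {v : S | z - v ∈ oarc 0 r} :=
      (isOpen_oarc 0 r).preimage (continuous_const.sub continuous_id)
    have hnem : {v : S | z - v ∈ oarc 0 r}.Nonempty := by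
      obtain ⟨x, hx⟩ := oarc_nonempty (0 : S) r0
      exact ⟨z - x, by
        show z - (z - x) ∈ oarc 0 r
        rwa [sub_sub_cancel]⟩
    obtain ⟨m, hm, hmO⟩ := dens_pos h.ord (max M0 M1) hopen hnem
    have hm0 : M0 ≤ m := (le_max_left _ _).trans hm
    have hm1 : M1 ≤ m := (le_max_right _ _).trans hm
    have hmO' : z - m • α ∈ oarc 0 r := hmO
    have h1 : Mv G θ (arc 0 (3 * r)) (y m) := by
      have hnF : y m ∉ F := by
        have := hM1' m (by rw [abs_of_nonneg (by omega)]; exact hm1)
        exact this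
      rw [hform' m hm0] at hnF ⊢
      exact hF' _ (oarc_sub (by linarith) hmO') hnF
    have h2 := h.mv_tr m h1
    have h3 : θ (tr (m • α)) (y m) = X Y α n := by
      rw [hy]
      simp only
      rw [h.tr_add, add_neg_cancel, h.tr_zero]
    rw [h3, zero_add] at h2
    obtain ⟨v, hv, sv, hvx⟩ := h2.exists_moved
    apply hvx
    refine h.away hN hN' hn hε0 ?_ hv sv
    intro s s0 s1 hs
    obtain ⟨t, t0, t1, ht⟩ := (mem_arc r3).1 hs
    obtain ⟨t', ⟨t0', t1'⟩, ht'⟩ := hmO'
    have e1 : (t' : S) = z - m • α := by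
      have : (0 : S) + (t' : S) = z - m • α := ht'
      rwa [zero_add] at this
    have e2 : m • α = n • α + ((u - t' : ℝ) : S) := by
      rw [AddCircle.coe_sub, e1, hzu]
      abel
    have e3 : (s : S) = ((u - t' + t : ℝ) : S) := by
      have : n • α + (s : S) = n • α + ((u - t' + t : ℝ) : S) := by
        rw [ht, e2, AddCircle.coe_add, add_assoc]
      exact add_left_cancel this
    have := coe_inj_of_lt e3 (by linarith) (by linarith)
    linarith
  refine ⟨M0, fun m hm => ?_⟩
  have h1 : y m = X Y α (n - m) := by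
    rw [hform' m hm, hzn]
    show Sum.inl _ = Sum.inl _
    rw [sub_smul]
  exact h1

/-- reflection of arcs -/
theorem Std.reflect (h : Std Y G θ α) {p : S} {c : ℝ} (c0 : 0 < c) (c1 : c < 1) {x : S ⊕ Y}
    (hx : Mv G θ (arc p c) x) : Mv G θ (arc (-p - (c : S)) c) (θ PCB.refl x) := by
  have hsw : {z | Equiv.swap (-p - (c : S)) (-p) z ≠ z}.Finite := by
    refine (Set.toFinite ({-p - (c : S), -p} : Set S)).subset ?_
    intro z hz
    by_contra hcon
    simp only [Set.mem_insert_iff, Set.mem_singleton_iff, not_or] at hcon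
    exact hz (Equiv.swap_apply_of_ne_of_ne hcon.1 hcon.2)
  obtain ⟨sG, s1⟩ := h.setup.fin _ hsw
  have hθ : θ (Equiv.swap (-p - (c : S)) (-p) * PCB.refl) = θ PCB.refl := by
    rw [h.setup.mul _ sG _ h.refl_mem, s1, one_mul]
  rw [← hθ]
  refine hx.transport h.setup (G.mul_mem sG h.refl_mem) ?_
  intro z hz
  obtain ⟨t, t0, t1, rfl⟩ := (mem_arc c1.le).1 hz
  rw [Equiv.Perm.mul_apply, refl_apply]
  rcases t0.lt_or_eq with ht | ht
  · have h1 : -(p + (t : S)) ≠ -p - (c : S) := by
      intro he
      have h2 : (t : S) = (c : S) := by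
        have : -(p + (t : S)) + p + (t : S) + (c : S) = -p - (c : S) + p + (t : S) + (c : S) := by
          rw [he]
        have e1 : -(p + (t : S)) + p + (t : S) + (c : S) = (c : S) := by abel
        have e2 : -p - (c : S) + p + (t : S) + (c : S) = (t : S) := by abel
        rw [e1, e2] at this
        exact this.symm
      have := coe_inj_of_lt h2 (by linarith) (by linarith)
      linarith
    have h1' : -(p + (t : S)) ≠ -p := by
      intro he
      have h2 : (t : S) = ((0 : ℝ) : S) := by
        have h3 := neg_injective he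
        have h4 : p + (t : S) = p + 0 := by rw [h3, add_zero]
        exact add_left_cancel h4
      have := coe_inj_of_lt h2 (by linarith) (by linarith)
      linarith
    rw [Equiv.swap_apply_of_ne_of_ne h1 h1']
    refine (mem_arc c1.le).2 ⟨c - t, by linarith, by linarith, ?_⟩
    rw [AddCircle.coe_sub]
    abel
  · rw [← ht]
    have e0 : ((0 : ℝ) : S) = 0 := rfl
    rw [e0, add_zero, Equiv.swap_apply_right]
    exact (mem_arc c1.le).2 ⟨0, le_rfl, c0, by rw [e0, add_zero]⟩

/-- There is no lift. -/
theorem Std.false (h : Std Y G θ α) : False := by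
  obtain ⟨N, hN, hN'⟩ := h.start
  obtain ⟨c, c0, c1, hc⟩ := exists_len h.ord (show (0 : ℝ) < 1 / 4 by norm_num)
  obtain ⟨M, hM⟩ := h.back hN hN' (le_refl N)
  -- a large index
  set k : ℤ := max N M with hk
  have hkN : N ≤ k := le_max_left _ _
  have hkM : M ≤ k := le_max_right _ _
  have hk0 : 0 < k := by omega
  have hb : θ (tr ((-(N + k)) • α)) (X Y α N) = X Y α (-k) := by
    rw [hM (N + k) (by omega)]
    congr 1
    ring
  have hr : θ PCB.refl (X Y α k) = X Y α (-k) :=
    (hN' k (by rw [abs_of_pos hk0]; exact hkN)).2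
  have hf : θ (tr ((k - N) • α)) (X Y α N) = X Y α k := h.shift' hN hN' le_rfl hkN
  -- the two positions exclude each other
  have hexcl : Mv G θ (arc ((-k) • α - (c : S)) c) (X Y α (-k)) →
      Mv G θ (arc ((-k) • α) c) (X Y α (-k)) → False := by
    intro h1 h2
    obtain ⟨v, hv, sv, hvx⟩ := h1.exists_moved
    refine h.ex (mem_zm (-k)) hc c0 (by linarith) ?_ hv sv hvx h2
    intro x hx hx'
    have e : (-k) • α = ((-k) • α - (c : S)) + (c : S) := by abel
    rw [e] at hx
    exact arc_disj le_rfl (by linarith) (by linarith) hx' hx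
  rcases h.side hN hN' (le_refl N) c0 c1.le with h1 | h1
  · have h2 := h.mv_tr (-(N + k)) h1
    rw [hb, ← add_smul] at h2
    have e1 : N + -(N + k) = -k := by ring
    rw [e1] at h2
    have h3 := h.mv_tr (k - N) h1
    rw [hf, ← add_smul] at h3
    have e2 : N + (k - N) = k := by ring
    rw [e2] at h3
    have h4 := h.reflect c0 (by linarith) h3
    rw [hr, ← neg_smul] at h4
    exact hexcl h4 h2
  · have h2 := h.mv_tr (-(N + k)) h1
    rw [hb] at h2
    have e1 : N • α - (c : S) + (-(N + k)) • α = (-k) • α - (c : S) := by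
      rw [neg_smul, neg_smul, add_smul]
      abel
    rw [e1] at h2
    have h3 := h.mv_tr (k - N) h1
    rw [hf] at h3
    have e2 : N • α - (c : S) + (k - N) • α = k • α - (c : S) := by
      rw [sub_smul]
      abel
    rw [e2] at h3
    have h4 := h.reflect c0 (by linarith) h3
    rw [hr] at h4
    have e3 : -(k • α - (c : S)) - (c : S) = (-k) • α := by
      rw [neg_smul]
      abel
    rw [e3] at h4
    exact hexcl h2 h4

end Q78.CycF
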