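import Pool.Agent.Q78.CycF.Defs

/-! Abstract lemmas about lifts. -/

namespace Q78.CycF

open Q78.PCB Topology

universe u

variable {Y : Type u}

/-- the action on `S ⊔ Y` which is trivial on `Y` -/
def xt (Y : Type u) (f : Equiv.Perm S) : Equiv.Perm (S ⊕ Y) := Equiv.sumCongr f (Equiv.refl Y)

theorem xt_inl (f : Equiv.Perm S) (x : S) : xt Y f (Sum.inl x) = Sum.inl (f x) := rfl
theorem xt_inr (f : Equiv.Perm S) (y : Y) : xt Y f (Sum.inr y) = Sum.inr y := rfl

/-- A lift of a group of permutations of the circle containing the finitely supported ones. -/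
structure Setup (G : Subgroup (Equiv.Perm S)) (θ : Equiv.Perm S → Equiv.Perm (S ⊕ Y)) : Prop where
  mul : ∀ f ∈ G, ∀ g ∈ G, θ (f * g) = θ f * θ g
  near : ∀ f ∈ G, {z | θ f z ≠ xt Y f z}.Finite
  fin : ∀ f : Equiv.Perm S, {x | f x ≠ x}.Finite → f ∈ G ∧ θ f = 1

variable {G : Subgroup (Equiv.Perm S)} {θ : Equiv.Perm S → Equiv.Perm (S ⊕ Y)}

theorem Setup.one (h : Setup G θ) : θ 1 = 1 := (h.fin 1 (by simp)).2

theorem Setup.inv (h : Setup G θ) {f : Equiv.Perm S} (hf : f ∈ G) : θ f⁻¹ = (θ f)⁻¹ := by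
  have := h.mul f hf f⁻¹ (G.inv_mem hf)
  rw [mul_inv_cancel, h.one] at this
  exact (inv_eq_of_mul_eq_one_right this.symm).symm

theorem Setup.pow (h : Setup G θ) {f : Equiv.Perm S} (hf : f ∈ G) (n : ℕ) :
    θ (f ^ n) = (θ f) ^ n := by
  induction n with
  | zero => simpa using h.one
  | succ n ih => rw [pow_succ, h.mul _ (G.pow_mem hf n) _ hf, ih, pow_succ]

theorem Setup.zpow (h : Setup G θ) {f : Equiv.Perm S} (hf : f ∈ G) (n : ℤ) :
    θ (f ^ n) = (θ f) ^ n := by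
  rcases Int.eq_nat_or_neg n with ⟨k, rfl | rfl⟩
  · rw [zpow_natCast, zpow_natCast, h.pow hf]
  · rw [zpow_neg, zpow_neg, zpow_natCast, zpow_natCast, h.inv (G.pow_mem hf k), h.pow hf]

/-- `f` is supported in `A` -/
def Sup (A : Set S) (f : Equiv.Perm S) : Prop := ∀ x ∉ A, f x = x

theorem Sup.inv {A : Set S} {f : Equiv.Perm S} (h : Sup A f) : Sup A f⁻¹ := by
  intro x hx
  rw [Equiv.Perm.inv_eq_iff_eq]
  exact (h x hx).symm

theorem Sup.mul {A : Set S} {f g : Equiv.Perm S} (h : Sup A f) (h' : Sup A g) : Sup A (f * g) := by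
  intro x hx
  rw [Equiv.Perm.mul_apply, h' x hx, h x hx]

theorem Sup.mono {A B : Set S} {f : Equiv.Perm S} (h : Sup A f) (hAB : A ⊆ B) : Sup B f :=
  fun x hx => h x (fun hx' => hx (hAB hx'))

theorem Sup.mapsTo {A : Set S} {f : Equiv.Perm S} (h : Sup A f) {x : S} (hx : x ∈ A) : f x ∈ A := by
  by_contra hcon
  have h1 := h _ hcon
  have h2 := f.injective h1
  rw [h2] at hcon
  exact hcon hx

theorem Sup.comm {A B : Set S} (hAB : Disjoint A B) {f g : Equiv.Perm S} (h : Sup A f)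
    (h' : Sup B g) : f * g = g * f := by
  have hd := Set.disjoint_left.1 hAB
  ext x
  rw [Equiv.Perm.mul_apply, Equiv.Perm.mul_apply]
  by_cases hA : x ∈ A
  · rw [h' x (hd hA), h' (f x) (hd (h.mapsTo hA))]
  · rw [h x hA]
    by_cases hB : x ∈ B
    · rw [h (g x) (fun hh => hd hh (h'.mapsTo hB))]
    · rw [h' x hB, h x hA]

theorem Sup.conj {A A' : Set S} {f k : Equiv.Perm S} (h : Sup A f) (hk : ∀ x ∈ A, k x ∈ A') :
    Sup A' (k * f * k⁻¹) := by
  intro x hx
  have h1 : k⁻¹ x ∉ A := by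
    intro h2
    apply hx
    have := hk _ h2
    rwa [show k (k⁻¹ x) = x from k.apply_symm_apply x] at this
  show k (f (k⁻¹ x)) = x
  rw [h _ h1]
  exact k.apply_symm_apply x

/-- `x` is moved by a commutator of elements supported in `A`. -/
def Mv (G : Subgroup (Equiv.Perm S)) (θ : Equiv.Perm S → Equiv.Perm (S ⊕ Y)) (A : Set S)
    (x : S ⊕ Y) : Prop :=
  ∃ c ∈ G, Sup A c ∧ ∃ d ∈ G, Sup A d ∧ θ c (θ d x) ≠ θ d (θ c x)

theorem Mv.transport (h : Setup G θ) {A A' : Set S} {x : S ⊕ Y} {k : Equiv.Perm S} (hk : k ∈ G)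
    (hA : ∀ x ∈ A, k x ∈ A') (hx : Mv G θ A x) : Mv G θ A' (θ k x) := by
  obtain ⟨c, hc, sc, d, hd, sd, hcd⟩ := hx
  refine ⟨k * c * k⁻¹, G.mul_mem (G.mul_mem hk hc) (G.inv_mem hk), sc.conj hA,
    k * d * k⁻¹, G.mul_mem (G.mul_mem hk hd) (G.inv_mem hk), sd.conj hA, ?_⟩
  have key : ∀ f ∈ G, ∀ z, θ (k * f * k⁻¹) (θ k z) = θ k (θ f z) := by
    intro f hf z
    rw [h.mul _ (G.mul_mem hk hf) _ (G.inv_mem hk), h.mul _ hk _ hf, h.inv hk]
    show θ k (θ f ((θ k)⁻¹ (θ k z))) = _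
    rw [show (θ k)⁻¹ (θ k z) = z from (θ k).symm_apply_apply z]
  rw [key d hd, key c hc, key c hc, key d hd]
  exact fun h' => hcd ((θ k).injective h')

theorem Mv.mono {A A' : Set S} {x : S ⊕ Y} (hA : A ⊆ A') (hx : Mv G θ A x) : Mv G θ A' x := by
  obtain ⟨c, hc, sc, d, hd, sd, hcd⟩ := hx
  exact ⟨c, hc, sc.mono hA, d, hd, sd.mono hA, hcd⟩

/-- Some element supported in `A` moves `x` if a commutator does. -/
theorem Mv.exists_moved {A : Set S} {x : S ⊕ Y} (hx : Mv G θ A x) :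
    ∃ v ∈ G, Sup A v ∧ θ v x ≠ x := by
  obtain ⟨c, hc, sc, d, hd, sd, hcd⟩ := hx
  by_contra hcon
  push Not at hcon
  apply hcd
  rw [hcon d hd sd, hcon c hc sc, hcon d hd sd]

/-- The exclusion lemma. -/
theorem excl (h : Setup G θ) {U B J : Set S} (hUB : Disjoint U B) (hJU : J ⊆ U)
    {g v : Equiv.Perm S} (hg : g ∈ G) (hv : v ∈ G) (sg : Sup U g) (sv : Sup B v)
    (hrec : ∀ k : ℕ, 0 < k → ∃ j : ℤ, ∀ x ∈ J, (g ^ ((k : ℤ) * j)) x ∉ J)
    {x : S ⊕ Y} (hx : θ v x ≠ x) : ¬ Mv G θ J x := by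
  rintro ⟨c, hc, sc, d, hd, sd, hcd⟩
  apply hcd
  have scU := sc.mono hJU
  have sdU := sd.mono hJU
  have hd' := Set.disjoint_left.1 hUB
  let K : Subgroup (Equiv.Perm (S ⊕ Y)) := Subgroup.closure {θ g, θ c, θ d}
  have hgK : θ g ∈ K := Subgroup.subset_closure (by simp)
  have hcK : θ c ∈ K := Subgroup.subset_closure (by simp)
  have hdK : θ d ∈ K := Subgroup.subset_closure (by simp)
  have hcomm : ∀ k ∈ K, ∀ z, θ v (k z) = k (θ v z) := by
    have h1 : ∀ f ∈ G, Sup U f → θ v * θ f = θ f * θ v := by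
      intro f hf sf
      rw [← h.mul v hv f hf, ← h.mul f hf v hv, Sup.comm hUB sf sv]
    have h2 : K ≤ Subgroup.centralizer {θ v} := by
      rw [Subgroup.closure_le]
      rintro k (rfl | rfl | rfl)
      · rw [SetLike.mem_coe, Subgroup.mem_centralizer_singleton_iff]
        exact (h1 g hg sg).symm
      · rw [SetLike.mem_coe, Subgroup.mem_centralizer_singleton_iff]
        exact (h1 c hc scU).symm
      · rw [SetLike.mem_coe, Subgroup.mem_centralizer_singleton_iff]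
        exact (h1 d hd sdU).symm
    intro k hk z
    have h3 := Subgroup.mem_centralizer_singleton_iff.1 (h2 hk)
    exact (congrArg (fun f : Equiv.Perm (S ⊕ Y) => f z) h3).symm
  let O : Set (S ⊕ Y) := {z | ∃ k ∈ K, k x = z}
  let F : Set (S ⊕ Y) := {z | θ v z ≠ xt Y v z} ∪ ({z | θ g z ≠ xt Y g z} ∪
    ({z | θ c z ≠ xt Y c z} ∪ {z | θ d z ≠ xt Y d z}))
  have hF : F.Finite := (h.near v hv).union ((h.near g hg).union ((h.near c hc).union (h.near d hd)))
  have hOv : ∀ z ∈ O, θ v z ≠ z := by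
    rintro z ⟨k, hk, rfl⟩ h1
    rw [hcomm k hk] at h1
    exact hx (k.injective h1)
  have hfix : ∀ z ∈ O, z ∉ F → θ g z = z ∧ θ c z = z ∧ θ d z = z := by
    intro z hz hzF
    simp only [F, Set.mem_union, Set.mem_ofPred_eq, not_or, not_not] at hzF
    obtain ⟨f1, f2, f3, f4⟩ := hzF
    have h1 := hOv z hz
    rcases z with s | y
    · rw [f1, xt_inl] at h1
      have h2 : s ∈ B := by
        by_contra h3
        rw [sv s h3] at h1
        exact h1 rfl
      have h3 : s ∉ U := fun h4 => hd' h4 h2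
      rw [f2, f3, f4, xt_inl, xt_inl, xt_inl, sg s h3, scU s h3, sdU s h3]
      exact ⟨rfl, rfl, rfl⟩
    · rw [f1, xt_inr] at h1
      exact absurd rfl h1
  have hxO : x ∈ O := ⟨1, K.one_mem, rfl⟩
  have hKO : ∀ k ∈ K, ∀ z ∈ O, k z ∈ O := by
    rintro k hk z ⟨k', hk', rfl⟩
    exact ⟨k * k', K.mul_mem hk hk', rfl⟩
  by_cases hne : ∃ z ∈ O, z ∉ F
  · obtain ⟨z, hz, hzF⟩ := hne
    obtain ⟨k, hk, hkx⟩ := hz
    obtain ⟨g1, g2, g3⟩ := hfix z ⟨k, hk, hkx⟩ hzF
    have h1 : K ≤ MulAction.stabilizer (Equiv.Perm (S ⊕ Y)) z := by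
      rw [Subgroup.closure_le]
      rintro k (rfl | rfl | rfl)
      · exact g1
      · exact g2
      · exact g3
    have h2 : k z = z := h1 hk
    have h3 : x = z := by
      rw [← hkx] at h2
      have := k.injective h2
      rw [hkx] at this
      exact this.symm
    rw [h3, g3, g2, g3]
  · push Not at hne
    have hOfin : O.Finite := hF.subset hne
    have hOiff : ∀ z, θ g z ∈ O ↔ z ∈ O := by
      intro z
      constructor
      · intro hz
        have := hKO _ (K.inv_mem hgK) _ hz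
        rwa [show (θ g)⁻¹ (θ g z) = z from (θ g).symm_apply_apply z] at this
      · exact hKO _ hgK z
    have hOF : Finite O := hOfin
    obtain ⟨n, hn, hn1⟩ := (isOfFinOrder_of_finite
      ((θ g).subtypePerm (p := fun z => z ∈ O) hOiff)).exists_pow_eq_one
    have hgn : ∀ z ∈ O, ((θ g) ^ n) z = z := by
      intro z hz
      have h1 := congrArg (fun f : Equiv.Perm {z // z ∈ O} => (f ⟨z, hz⟩ : S ⊕ Y)) hn1
      simp only [Equiv.Perm.subtypePerm_pow] at h1
      exact h1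
    obtain ⟨j, hj⟩ := hrec n hn
    have hgnj : ∀ z ∈ O, ((θ g) ^ ((n : ℤ) * j)) z = z := by
      intro z hz
      have h1 : (θ g) ^ n ∈ MulAction.stabilizer (Equiv.Perm (S ⊕ Y)) z := hgn z hz
      have h2 := Subgroup.zpow_mem _ h1 j
      rw [← zpow_natCast, ← zpow_mul] at h2
      exact h2
    set q : Equiv.Perm S := g ^ ((n : ℤ) * j) with hq
    have hqG : q ∈ G := G.zpow_mem hg _
    have hθq : θ q = (θ g) ^ ((n : ℤ) * j) := h.zpow hg _
    have hd2G : q * d * q⁻¹ ∈ G := G.mul_mem (G.mul_mem hqG hd) (G.inv_mem hqG)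
    have sd2 : Sup Jᶜ (q * d * q⁻¹) := sd.conj (fun x hx => hj x hx)
    have hcomm2 : c * (q * d * q⁻¹) = (q * d * q⁻¹) * c :=
      Sup.comm disjoint_compl_right sc sd2
    have hθd2 : ∀ z ∈ O, θ (q * d * q⁻¹) z = θ d z := by
      intro z hz
      rw [h.mul _ (G.mul_mem hqG hd) _ (G.inv_mem hqG), h.mul _ hqG _ hd, h.inv hqG, hθq]
      show ((θ g) ^ ((n : ℤ) * j)) (θ d (((θ g) ^ ((n : ℤ) * j))⁻¹ z)) = _
      have h1 : ((θ g) ^ ((n : ℤ) * j))⁻¹ z = z := by
        rw [Equiv.Perm.inv_eq_iff_eq]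
        exact (hgnj z hz).symm
      rw [h1, hgnj _ (hKO _ hdK z hz)]
    calc θ c (θ d x) = θ c (θ (q * d * q⁻¹) x) := by rw [hθd2 x hxO]
      _ = θ (q * d * q⁻¹) (θ c x) := by
          have h1 : θ c * θ (q * d * q⁻¹) = θ (q * d * q⁻¹) * θ c := by
            rw [← h.mul _ hc _ hd2G, ← h.mul _ hd2G _ hc, hcomm2]
          exact congrArg (fun f : Equiv.Perm (S ⊕ Y) => f x) h1
      _ = θ d (θ c x) := hθd2 _ (hKO _ hcK x hxO)

/-! ### Block swaps -/

/-- The translates of `B` by `p` and by `q` are disjoint. -/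
def Dj (B : Set S) (p q : S) : Prop := ∀ x, x - p ∈ B → x - q ∉ B

theorem Dj.symm {B : Set S} {p q : S} (h : Dj B p q) : Dj B q p := fun x h1 h2 => h x h2 h1

open Classical in
/-- the swap of two translates, as a function -/
noncomputable def bsf (B : Set S) (p q : S) (x : S) : S :=
  if x - p ∈ B then x - p + q else if x - q ∈ B then x - q + p else x

theorem bsf_left {B : Set S} {p q x : S} (h : x - p ∈ B) : bsf B p q x = x - p + q := if_pos h

theorem bsf_right {B : Set S} {p q x : S} (hd : Dj B p q) (h : x - q ∈ B) :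
    bsf B p q x = x - q + p := by
  unfold bsf
  rw [if_neg (fun h' => hd x h' h), if_pos h]

theorem bsf_off {B : Set S} {p q x : S} (h : x - p ∉ B) (h' : x - q ∉ B) :
    bsf B p q x = x := by
  unfold bsf
  rw [if_neg h, if_neg h']

theorem bsf_invol {B : Set S} {p q : S} (hd : Dj B p q) (x : S) :
    bsf B p q (bsf B p q x) = x := by
  by_cases h : x - p ∈ B
  · rw [bsf_left h, bsf_right hd (by rwa [add_sub_cancel_right])]
    abel
  · by_cases h' : x - q ∈ B
    · rw [bsf_right hd h', bsf_left (by rwa [add_sub_cancel_right])]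
      abel
    · rw [bsf_off h h', bsf_off h h']

/-- the swap of two translates -/
noncomputable def bs (B : Set S) (p q : S) (hd : Dj B p q) : Equiv.Perm S :=
  ⟨bsf B p q, bsf B p q, bsf_invol hd, bsf_invol hd⟩

theorem bs_apply (B : Set S) (p q : S) (hd : Dj B p q) (x : S) : bs B p q hd x = bsf B p q x := rfl

theorem bs_inv (B : Set S) (p q : S) (hd : Dj B p q) : (bs B p q hd)⁻¹ = bs B p q hd := rfl

theorem bs_sq (B : Set S) (p q : S) (hd : Dj B p q) : bs B p q hd * bs B p q hd = 1 := by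
  rw [← inv_eq_iff_mul_eq_one]; rfl

/-- The conjugation identity. -/
theorem bs_conj {B : Set S} {p q r : S} (h1 : Dj B p q) (h2 : Dj B q r) (h3 : Dj B p r) :
    bs B p q h1 * bs B q r h2 * bs B p q h1 = bs B p r h3 := by
  ext x
  rw [Equiv.Perm.mul_apply, Equiv.Perm.mul_apply]
  simp only [bs_apply]
  by_cases hp : x - p ∈ B
  · rw [bsf_left (q := q) hp, bsf_left (q := r) (p := q) (by rwa [add_sub_cancel_right]),
      bsf_left (q := r) hp, add_sub_cancel_right]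
    have hr : x - p + r - r ∈ B := by rwa [add_sub_cancel_right]
    rw [bsf_off (fun h => h3 _ h hr) (fun h => h2 _ h hr)]
  · by_cases hq : x - q ∈ B
    · rw [bsf_right h1 hq]
      have hp' : x - q + p - p ∈ B := by rwa [add_sub_cancel_right]
      rw [bsf_off (fun h => h1 _ hp' h) (fun h => h3 _ hp' h), bsf_left hp',
        bsf_off hp (fun h => h2 _ hq h)]
      abel
    · rw [bsf_off hp hq]
      by_cases hr : x - r ∈ B
      · rw [bsf_right h2 hr]
        have hq' : x - r + q - q ∈ B := by rwa [add_sub_cancel_right]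
        rw [bsf_right h1 hq', bsf_right h3 hr]
        abel
      · rw [bsf_off hq hr, bsf_off hp hq, bsf_off hp hr]

theorem bs_sup {B : Set S} {p q : S} (hd : Dj B p q) {A : Set S} (h1 : ∀ x, x - p ∈ B → x ∈ A)
    (h2 : ∀ x, x - q ∈ B → x ∈ A) : Sup A (bs B p q hd) := by
  intro x hx
  rw [bs_apply, bsf_off (fun h => hx (h1 x h)) (fun h => hx (h2 x h))]

/-- splitting a swap -/
theorem bs_split {B B1 B2 : Set S} {p q : S} (hd : Dj B p q) (hB : ∀ x, x ∈ B ↔ x ∈ B1 ∨ x ∈ B2)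
    (hdis : ∀ x, x ∈ B1 → x ∉ B2) (h1 : Dj B1 p q) (h2 : Dj B2 p q) :
    bs B p q hd = bs B1 p q h1 * bs B2 p q h2 := by
  ext x
  rw [Equiv.Perm.mul_apply]
  simp only [bs_apply]
  have hB1 : ∀ x, x ∈ B1 → x ∈ B := fun x h => (hB x).2 (Or.inl h)
  have hB2 : ∀ x, x ∈ B2 → x ∈ B := fun x h => (hB x).2 (Or.inr h)
  by_cases hp : x - p ∈ B
  · rw [bsf_left hp]
    have hq := hd x hp
    rcases (hB _).1 hp with hp1 | hp2
    · rw [bsf_off (B := B2) (hdis _ hp1) (fun h => hq (hB2 _ h)), bsf_left hp1]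
    · rw [bsf_left hp2]
      have hz : x - p + q - q ∈ B := by rwa [add_sub_cancel_right]
      rw [bsf_off (B := B1) (fun h => hd _ (hB1 _ h) hz)]
      rw [add_sub_cancel_right]
      exact fun h => hdis _ h hp2
  · by_cases hq : x - q ∈ B
    · rw [bsf_right hd hq]
      rcases (hB _).1 hq with hq1 | hq2
      · rw [bsf_off (B := B2) (fun h => hp (hB2 _ h)) (hdis _ hq1), bsf_right h1 hq1]
      · rw [bsf_right h2 hq2]
        have hz : x - q + p - p ∈ B := by rwa [add_sub_cancel_right]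
        rw [bsf_off (B := B1)]
        · rw [add_sub_cancel_right]
          exact fun h => hdis _ h hq2
        · exact fun h => hd _ hz (hB1 _ h)
    · rw [bsf_off hp hq, bsf_off (B := B2) (fun h => hp (hB2 _ h)) (fun h => hq (hB2 _ h)),
        bsf_off (B := B1) (fun h => hp (hB1 _ h)) (fun h => hq (hB1 _ h))]

/-- If commutators in `A` and everything in `W` fix `x` then so does the swap of the blocks
`0` and `3`. -/
theorem four_blocks (h : Setup G θ) {A W B : Set S} {p q1 q2 q3 : S} {x : S ⊕ Y}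
    (hA : ¬ Mv G θ A x) (hW : ∀ v ∈ G, Sup W v → θ v x = x)
    (d01 : Dj B p q1) (d02 : Dj B p q2) (d03 : Dj B p q3) (d12 : Dj B q1 q2) (d23 : Dj B q2 q3)
    (hG : ∀ a b (hd : Dj B a b), a ∈ ({p, q1, q2, q3} : Set S) → b ∈ ({p, q1, q2, q3} : Set S) →
      bs B a b hd ∈ G)
    (A0 : ∀ x, x - p ∈ B → x ∈ A) (A1 : ∀ x, x - q1 ∈ B → x ∈ A) (A2 : ∀ x, x - q2 ∈ B → x ∈ A)
    (W1 : ∀ x, x - q1 ∈ B → x ∈ W) (W2 : ∀ x, x - q2 ∈ B → x ∈ W)
    (W3 : ∀ x, x - q3 ∈ B → x ∈ W) : θ (bs B p q3 d03) x = x := by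
  have g01 := hG p q1 d01 (by simp) (by simp)
  have g12 := hG q1 q2 d12 (by simp) (by simp)
  have g23 := hG q2 q3 d23 (by simp) (by simp)
  have g02 := hG p q2 d02 (by simp) (by simp)
  have f12 : θ (bs B q1 q2 d12) x = x := hW _ g12 (bs_sup d12 W1 W2)
  have f23 : θ (bs B q2 q3 d23) x = x := hW _ g23 (bs_sup d23 W2 W3)
  have hcomm : θ (bs B p q1 d01) (θ (bs B q1 q2 d12) x) =
      θ (bs B q1 q2 d12) (θ (bs B p q1 d01) x) := by
    by_contra hcon
    exact hA ⟨_, g01, bs_sup d01 A0 A1, _, g12, bs_sup d12 A1 A2, hcon⟩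
  have hsq : ∀ f ∈ G, f * f = 1 → ∀ z, θ f (θ f z) = z := by
    intro f hf hff z
    have h1 := h.mul f hf f hf
    rw [hff, h.one] at h1
    exact (congrArg (fun k : Equiv.Perm (S ⊕ Y) => k z) h1).symm
  have f02 : θ (bs B p q2 d02) x = x := by
    rw [← bs_conj d01 d12 d02, h.mul _ (G.mul_mem g01 g12) _ g01, h.mul _ g01 _ g12]
    show θ (bs B p q1 d01) (θ (bs B q1 q2 d12) (θ (bs B p q1 d01) x)) = x
    rw [← hcomm, f12]
    exact hsq _ g01 (bs_sq _ _ _ _) x
  have d20 := d02.symm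
  have d30 := d03.symm
  have d32 := d23.symm
  have e20 : bs B q2 p d20 = bs B p q2 d02 := by
    ext z
    simp only [bs_apply]
    by_cases h1 : z - p ∈ B
    · rw [bsf_left h1, bsf_right d20 h1]
    · by_cases h2 : z - q2 ∈ B
      · rw [bsf_left h2, bsf_right d02 h2]
      · rw [bsf_off h1 h2, bsf_off h2 h1]
  have e03 : bs B q3 p d30 = bs B p q3 d03 := by
    ext z
    simp only [bs_apply]
    by_cases h1 : z - p ∈ B
    · rw [bsf_left h1, bsf_right d30 h1]
    · by_cases h2 : z - q3 ∈ B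
      · rw [bsf_left h2, bsf_right d03 h2]
      · rw [bsf_off h1 h2, bsf_off h2 h1]
  have e32 : bs B q3 q2 d32 = bs B q2 q3 d23 := by
    ext z
    simp only [bs_apply]
    by_cases h1 : z - q2 ∈ B
    · rw [bsf_left h1, bsf_right d32 h1]
    · by_cases h2 : z - q3 ∈ B
      · rw [bsf_left h2, bsf_right d23 h2]
      · rw [bsf_off h1 h2, bsf_off h2 h1]
  rw [← e03, ← bs_conj d32 d20 d30, e32, e20, h.mul _ (G.mul_mem g23 g02) _ g23,
    h.mul _ g23 _ g02]
  show θ (bs B q2 q3 d23) (θ (bs B p q2 d02) (θ (bs B q2 q3 d23) x)) = x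
  rw [f23, f02, f23]

end Q78.CycF
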