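import Pool.Agent.Q78.PCB.Defs

/-!
Interval exchanges with flips whose breakpoints and translation parts are in a subgroup of the
circle, and stable realizability.
-/

namespace Q78.CycF

open Q78.PCB Topology

/-- Off a finite subset of `Λ` the permutation `f` is locally of the form `x ↦ ± x + c` with
`c ∈ Λ`. -/
def IsPI (Λ : AddSubgroup S) (f : Equiv.Perm S) : Prop :=
  ∃ K : Set S, K.Finite ∧ K ⊆ Λ ∧ ∀ x ∉ K, ∃ c ∈ Λ,
    (∀ᶠ y in 𝓝 x, f y = y + c) ∨ (∀ᶠ y in 𝓝 x, f y = -y + c)

/-- The classes of these permutations modulo finitely supported permutations. -/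
def IETB (Λ : AddSubgroup S) : Set PCBow := {g | ∃ f : PC, IsPI Λ (perm f) ∧ proj f = g}

/-- For some set `Y` there is an action of `Γ` on `S ⊔ Y` which is, up to finite sets, the given
one on `S` and the trivial one on `Y`. -/
def StablyRealizable.{u} (Γ : Subgroup PCBow) : Prop :=
  ∃ (Y : Type u) (ρ : Γ →* Equiv.Perm (S ⊕ Y)), ∀ (f : PC) (h : proj f ∈ Γ),
    {z : S ⊕ Y | ρ ⟨proj f, h⟩ z ≠ Equiv.sumCongr (perm f) (Equiv.refl Y) z}.Finite

end Q78.CycF
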