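import Pool.Agent.Q78.CycF.Steps

/-! The contradiction for a lift, second part. -/

namespace Q78.CycF

open Q78.PCB Q78.Stab Topology Set Filter

universe u

variable {Y : Type u} {G : Subgroup (Equiv.Perm S)} {θ : Equiv.Perm S → Equiv.Perm (S ⊕ Y)}
  {α : S}

/-- real coordinates: membership in an arc based at `b + r` -/
theorem mem_arc_off {b x : S} {r l : ℝ} (hl : l ≤ 1) :
    x ∈ arc (b + (r : S)) l ↔ ∃ t : ℝ, r ≤ t ∧ t < r + l ∧ x = b + (t : S) := by
  rw [mem_arc hl]
  constructor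
  · rintro ⟨t, h0, h1, rfl⟩
    exact ⟨r + t, by linarith, by linarith, by rw [AddCircle.coe_add]; abel⟩
  · rintro ⟨t, h0, h1, rfl⟩
    exact ⟨t - r, by linarith, by linarith, by rw [AddCircle.coe_sub]; abel⟩

theorem coe_inj_of_lt {s t : ℝ} (h : (s : S) = (t : S)) (h1 : s - t < 1) (h2 : -1 < s - t) :
    s = t := by
  obtain ⟨n, hn⟩ := (coe_eq_iff _ _).1 h
  have h3 : (n : ℝ) < 1 := by linarith
  have h4 : (-1 : ℝ) < n := by linarith
  have h5 : n < 1 := by exact_mod_cast h3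
  have h6 : -1 < n := by exact_mod_cast h4
  have : n = 0 := by omega
  rw [this] at hn
  simpa using hn

/-- translates of a short arc by real numbers are disjoint when the numbers are apart -/
theorem dj_of {b : S} {l p q : ℝ} (l1 : l ≤ 1) (h1 : l ≤ |p - q|) (h2 : |p - q| + l ≤ 1) :
    Dj (arc b l) (p : S) (q : S) := by
  intro x hx hx'
  rw [sub_mem_arc, mem_arc_off l1] at hx hx'
  obtain ⟨t, t0, t1, rfl⟩ := hx
  obtain ⟨s, s0, s1, hs⟩ := hx'
  have h3 : (t : S) = (s : S) := add_left_cancel hs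
  rcases abs_cases (p - q) with ⟨h4, _⟩ | ⟨h4, _⟩
  · have := coe_inj_of_lt h3 (by linarith) (by linarith)
    linarith
  · have := coe_inj_of_lt h3 (by linarith) (by linarith)
    linarith

/-- One half of the block: the swap of the blocks fixes the point. -/
theorem Std.half (h : Std Y G θ α) {N : ℤ} (hN : 0 < N) (hN' : ∀ n, N ≤ |n| →
    θ (tr α) (X Y α n) = X Y α (n + 1) ∧ θ PCB.refl (X Y α n) = X Y α (-n)) {n : ℤ} (hn : N ≤ n)
    {A : Set S} (hA : ¬ Mv G θ A (X Y α n)) {b : S} {l q1 q2 q3 r : ℝ} (b0 : b ∈ AddSubgroup.zmultiples α)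
    (hl : (l : S) ∈ AddSubgroup.zmultiples α) (h1 : (q1 : S) ∈ AddSubgroup.zmultiples α)
    (h2 : (q2 : S) ∈ AddSubgroup.zmultiples α) (h3 : (q3 : S) ∈ AddSubgroup.zmultiples α)
    (r0 : 0 < r) (lr : l ≤ r) (d1 : r ≤ |q1|) (d2 : r ≤ |q2|) (d3 : r ≤ |q3|)
    (d12 : r ≤ |q1 - q2|) (d23 : r ≤ |q2 - q3|)
    (u1 : |q1| + r ≤ 1 / 3) (u2 : |q2| + r ≤ 1 / 3) (u3 : |q3| + r ≤ 1 / 3)
    (A0 : ∀ x ∈ arc b l, x ∈ A) (A1 : ∀ x ∈ arc (b + (q1 : S)) l, x ∈ A)
    (A2 : ∀ x ∈ arc (b + (q2 : S)) l, x ∈ A)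
    (ε : ℝ) (hε : 0 < ε)
    (W1 : ∀ s : ℝ, -ε ≤ s → s < ε → n • α + (s : S) ∉ arc (b + (q1 : S)) l)
    (W2 : ∀ s : ℝ, -ε ≤ s → s < ε → n • α + (s : S) ∉ arc (b + (q2 : S)) l)
    (W3 : ∀ s : ℝ, -ε ≤ s → s < ε → n • α + (s : S) ∉ arc (b + (q3 : S)) l)
    (hd : Dj (arc b l) 0 (q3 : S)) :
    θ (bs (arc b l) 0 (q3 : S) hd) (X Y α n) = X Y α n := by
  have a0 := abs_nonneg q1
  have a1 := abs_nonneg q2
  have a2 := abs_nonneg q3
  have t12 := abs_sub q1 q2
  have t23 := abs_sub q2 q3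
  have e0 : (((0 : ℝ) : ℝ) : S) = 0 := rfl
  have D01 : Dj (arc b l) 0 (q1 : S) := by
    rw [← e0]
    apply dj_of (by linarith)
    · rw [zero_sub, abs_neg]; linarith
    · rw [zero_sub, abs_neg]; linarith
  have D02 : Dj (arc b l) 0 (q2 : S) := by
    rw [← e0]
    apply dj_of (by linarith)
    · rw [zero_sub, abs_neg]; linarith
    · rw [zero_sub, abs_neg]; linarith
  have D12 : Dj (arc b l) (q1 : S) (q2 : S) := by
    apply dj_of (by linarith)
    · linarith
    · linarith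
  have D23 : Dj (arc b l) (q2 : S) (q3 : S) := by
    apply dj_of (by linarith)
    · linarith
    · linarith
  refine four_blocks h.setup (A := A)
    (W := {x | x ∈ arc (b + (q1 : S)) l ∨ x ∈ arc (b + (q2 : S)) l ∨ x ∈ arc (b + (q3 : S)) l})
    hA ?_ D01 D02 hd D12 D23 ?_ ?_ ?_ ?_ ?_ ?_ ?_
  · intro v hv sv
    refine h.away hN hN' hn hε ?_ hv sv
    rintro s s0 s1 (hs | hs | hs)
    · exact W1 s s0 s1 hs
    · exact W2 s s0 s1 hs
    · exact W3 s s0 s1 hs
  · have hall : ∀ a ∈ ({0, (q1 : S), (q2 : S), (q3 : S)} : Set S), a ∈ AddSubgroup.zmultiples α := by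
      rintro a (rfl | rfl | rfl | rfl)
      · exact AddSubgroup.zero_mem _
      · exact h1
      · exact h2
      · exact h3
    intro a c hac ha hc
    exact h.bs_mem b0 hl (hall a ha) (hall c hc) hac
  · intro x hx
    rw [sub_zero] at hx
    exact A0 x hx
  · intro x hx
    exact A1 x (sub_mem_arc.1 hx)
  · intro x hx
    exact A2 x (sub_mem_arc.1 hx)
  · intro x hx
    exact Or.inl (sub_mem_arc.1 hx)
  · intro x hx
    exact Or.inr (Or.inl (sub_mem_arc.1 hx))
  · intro x hx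
    exact Or.inr (Or.inr (sub_mem_arc.1 hx))

/-- every `n α` has a side -/
theorem Std.side (h : Std Y G θ α) {N : ℤ} (hN : 0 < N) (hN' : ∀ n, N ≤ |n| →
    θ (tr α) (X Y α n) = X Y α (n + 1) ∧ θ PCB.refl (X Y α n) = X Y α (-n)) {n : ℤ} (hn : N ≤ n)
    {c : ℝ} (c0 : 0 < c) (c1 : c ≤ 1 / 4) :
    Mv G θ (arc (n • α) c) (X Y α n) ∨ Mv G θ (arc (n • α - (c : S)) c) (X Y α n) := by
  by_contra hcon
  rw [not_or] at hcon
  obtain ⟨hp, hm⟩ := hcon
  obtain ⟨r, r0, r1, hr⟩ := exists_len h.ord (show 0 < c / 20 by positivity)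
  have hk : ∀ (k : ℤ) (y : ℝ), y = k * r → (y : S) ∈ AddSubgroup.zmultiples α := by
    rintro k y rfl
    exact coe_mul_mem hr k
  have z0 : (0 : S) ∈ AddSubgroup.zmultiples α := AddSubgroup.zero_mem _
  have h6r := hk 6 (6 * r) (by norm_num)
  have e0 : (((0 : ℝ) : ℝ) : S) = 0 := rfl
  -- the swap
  have D : Dj (arc 0 r) 0 ((6 * r : ℝ) : S) := by
    rw [← e0]
    apply dj_of (by linarith)
    · rw [zero_sub, abs_neg, abs_of_pos (by linarith)]; linarith
    · rw [zero_sub, abs_neg, abs_of_pos (by linarith)]; linarith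
  have sG : bs (arc 0 r) 0 ((6 * r : ℝ) : S) D ∈ G := h.bs_mem z0 hr z0 h6r D
  obtain ⟨N1, hN1, hN1'⟩ := bad_bound h.ord (h.setup.near _ sG)
  obtain ⟨m, hmm, t, ⟨t0, t1⟩, hmt⟩ := dens_pos h.ord (max n N1) (isOpen_oarc 0 r)
    (oarc_nonempty 0 r0)
  have hmn : n ≤ m := (le_max_left _ _).trans hmm
  have hmN : N ≤ m := hn.trans hmn
  have hmN1 : N1 ≤ m := (le_max_right _ _).trans hmm
  have htm : (t : S) = m • α := by
    have : (0 : S) + (t : S) = m • α := hmt
    rwa [zero_add] at this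
  have htΛ : (t : S) ∈ AddSubgroup.zmultiples α := by rw [htm]; exact mem_zm m
  -- no side for `m α`
  have hp' : ¬ Mv G θ (arc (m • α) c) (X Y α m) := by
    intro h1
    have h2 := h.mv_tr (n - m) h1
    rw [h.shift_back hN hN' hn hmn, ← add_smul] at h2
    have : m + (n - m) = n := by ring
    rw [this] at h2
    exact hp h2
  have hm' : ¬ Mv G θ (arc (m • α - (c : S)) c) (X Y α m) := by
    intro h1
    have h2 := h.mv_tr (n - m) h1
    rw [h.shift_back hN hN' hn hmn] at h2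
    have : m • α - (c : S) + (n - m) • α = n • α - (c : S) := by
      rw [sub_smul]; abel
    rw [this] at h2
    exact hm h2
  -- the two halves
  have ab : ∀ k : ℝ, 0 ≤ k → |k * r| = k * r := fun k hk => abs_of_nonneg (by positivity)
  have D1 : Dj (arc 0 t) 0 ((6 * r : ℝ) : S) := by
    rw [← e0]
    apply dj_of (by linarith)
    · rw [zero_sub, abs_neg, abs_of_pos (by linarith)]; linarith
    · rw [zero_sub, abs_neg, abs_of_pos (by linarith)]; linarith
  have D2 : Dj (arc (t : S) (r - t)) 0 ((6 * r : ℝ) : S) := by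
    rw [← e0]
    apply dj_of (by linarith)
    · rw [zero_sub, abs_neg, abs_of_pos (by linarith)]; linarith
    · rw [zero_sub, abs_neg, abs_of_pos (by linarith)]; linarith
  have hsplit : bs (arc 0 r) 0 ((6 * r : ℝ) : S) D =
      bs (arc 0 t) 0 ((6 * r : ℝ) : S) D1 * bs (arc (t : S) (r - t)) 0 ((6 * r : ℝ) : S) D2 := by
    refine bs_split D ?_ ?_ D1 D2
    · intro x
      have e : (t : S) = 0 + (t : S) := by rw [zero_add]
      rw [mem_arc (by linarith), mem_arc (by linarith), e, mem_arc_off (by linarith)]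
      constructor
      · rintro ⟨s, s0, s1, rfl⟩
        by_cases hst : s < t
        · exact Or.inl ⟨s, s0, hst, rfl⟩
        · exact Or.inr ⟨s, by linarith, by linarith, rfl⟩
      · rintro (⟨s, s0, s1, rfl⟩ | ⟨s, s0, s1, rfl⟩)
        · exact ⟨s, s0, by linarith, rfl⟩
        · exact ⟨s, by linarith, by linarith, rfl⟩
    · intro x hx hx'
      have e : (t : S) = 0 + (t : S) := by rw [zero_add]
      rw [e] at hx'
      exact arc_disj le_rfl (by linarith) (by linarith) hx hx'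
  -- coordinates of `m α + s`
  have hcoord : ∀ s : ℝ, m • α + (s : S) = 0 + ((t + s : ℝ) : S) := by
    intro s
    rw [← htm, AddCircle.coe_add, zero_add]
  have W : ∀ (y l q : ℝ), 0 ≤ y → 0 < l → y + l ≤ r → |q| ≤ 6 * r → 2 * r ≤ |q| →
      ∀ s : ℝ, -r ≤ s → s < r → m • α + (s : S) ∉ arc (((y : ℝ) : S) + (q : S)) l := by
    intro y l q y0 l0 yl q6 q2 s s0 s1 hs
    have e : ((y : ℝ) : S) + (q : S) = 0 + ((y + q : ℝ) : S) := by
      rw [AddCircle.coe_add, zero_add]
    rw [hcoord, e, mem_arc_off (by linarith)] at hs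
    obtain ⟨u, u0, u1, hu⟩ := hs
    have hu' := add_left_cancel hu
    rcases abs_cases q with ⟨h4, _⟩ | ⟨h4, _⟩
    · have := coe_inj_of_lt hu' (by linarith) (by linarith)
      linarith
    · have := coe_inj_of_lt hu' (by linarith) (by linarith)
      linarith
  have habs : ∀ k : ℝ, |k * r| = |k| * r := fun k => by rw [abs_mul, abs_of_pos r0]
  have f1 : θ (bs (arc 0 t) 0 ((6 * r : ℝ) : S) D1) (X Y α m) = X Y α m := by
    refine h.half hN hN' hmN hm' (b := 0) (l := t) (q1 := -2 * r) (q2 := -4 * r) (q3 := 6 * r)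
      (r := r) z0 htΛ (hk (-2) _ (by push_cast; ring)) (hk (-4) _ (by push_cast; ring)) h6r r0 t1.le
      ?_ ?_ ?_ ?_ ?_ ?_ ?_ ?_ ?_ ?_ ?_ r r0 ?_ ?_ ?_ D1
    · rw [habs]; norm_num; linarith
    · rw [habs]; norm_num; linarith
    · rw [habs]; norm_num; linarith
    · rw [← sub_mul, habs]; norm_num; linarith
    · rw [← sub_mul, habs]; norm_num; linarith
    · rw [habs]; norm_num; linarith
    · rw [habs]; norm_num; linarith
    · rw [habs]; norm_num; linarith
    · intro x hx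
      obtain ⟨s, s0, s1, rfl⟩ := (mem_arc (by linarith)).1 hx
      refine (mem_arc (by linarith)).2 ⟨s - t + c, by linarith, by linarith, ?_⟩
      rw [← htm, AddCircle.coe_add, AddCircle.coe_sub]
      abel
    · intro x hx
      obtain ⟨s, s0, s1, rfl⟩ := (mem_arc_off (by linarith)).1 hx
      refine (mem_arc (by linarith)).2 ⟨s - t + c, by linarith, by linarith, ?_⟩
      rw [← htm, AddCircle.coe_add, AddCircle.coe_sub]
      abel
    · intro x hx
      obtain ⟨s, s0, s1, rfl⟩ := (mem_arc_off (by linarith)).1 hx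
      refine (mem_arc (by linarith)).2 ⟨s - t + c, by linarith, by linarith, ?_⟩
      rw [← htm, AddCircle.coe_add, AddCircle.coe_sub]
      abel
    · have := W 0 t (-2 * r) le_rfl t0 (by linarith) (by rw [habs]; norm_num; linarith)
        (by rw [habs]; norm_num)
      rwa [e0] at this
    · have := W 0 t (-4 * r) le_rfl t0 (by linarith) (by rw [habs]; norm_num; linarith)
        (by rw [habs]; norm_num; linarith)
      rwa [e0] at this
    · have := W 0 t (6 * r) le_rfl t0 (by linarith) (by rw [habs]; norm_num)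
        (by rw [habs]; norm_num; linarith)
      rwa [e0] at this
  have f2 : θ (bs (arc (t : S) (r - t)) 0 ((6 * r : ℝ) : S) D2) (X Y α m) = X Y α m := by
    have hlΛ : ((r - t : ℝ) : S) ∈ AddSubgroup.zmultiples α := by
      rw [AddCircle.coe_sub]; exact AddSubgroup.sub_mem _ hr htΛ
    refine h.half hN hN' hmN hp' (b := (t : S)) (l := r - t) (q1 := 2 * r) (q2 := 4 * r)
      (q3 := 6 * r)
      (r := r) htΛ hlΛ (hk 2 _ (by push_cast; ring)) (hk 4 _ (by push_cast; ring)) h6r r0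
      (by linarith)
      ?_ ?_ ?_ ?_ ?_ ?_ ?_ ?_ ?_ ?_ ?_ r r0 ?_ ?_ ?_ D2
    · rw [habs]; norm_num; linarith
    · rw [habs]; norm_num; linarith
    · rw [habs]; norm_num; linarith
    · rw [← sub_mul, habs]; norm_num; linarith
    · rw [← sub_mul, habs]; norm_num; linarith
    · rw [habs]; norm_num; linarith
    · rw [habs]; norm_num; linarith
    · rw [habs]; norm_num; linarith
    · intro x hx
      obtain ⟨s, s0, s1, rfl⟩ := (mem_arc (by linarith)).1 hx
      exact (mem_arc (by linarith)).2 ⟨s, by linarith, by linarith, by rw [htm]⟩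
    · intro x hx
      obtain ⟨s, s0, s1, rfl⟩ := (mem_arc_off (by linarith)).1 hx
      exact (mem_arc (by linarith)).2 ⟨s, by linarith, by linarith, by rw [htm]⟩
    · intro x hx
      obtain ⟨s, s0, s1, rfl⟩ := (mem_arc_off (by linarith)).1 hx
      exact (mem_arc (by linarith)).2 ⟨s, by linarith, by linarith, by rw [htm]⟩
    · exact W t (r - t) (2 * r) t0.le (by linarith) (by linarith)
        (by rw [habs]; norm_num; linarith) (by rw [habs]; norm_num)
    · exact W t (r - t) (4 * r) t0.le (by linarith) (by linarith)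
        (by rw [habs]; norm_num; linarith) (by rw [habs]; norm_num; linarith)
    · exact W t (r - t) (6 * r) t0.le (by linarith) (by linarith)
        (by rw [habs]; norm_num) (by rw [habs]; norm_num; linarith)
  have g1 : bs (arc 0 t) 0 ((6 * r : ℝ) : S) D1 ∈ G := h.bs_mem z0 htΛ z0 h6r D1
  have g2 : bs (arc (t : S) (r - t)) 0 ((6 * r : ℝ) : S) D2 ∈ G := by
    refine h.bs_mem htΛ ?_ z0 h6r D2
    rw [AddCircle.coe_sub]; exact AddSubgroup.sub_mem _ hr htΛ
  have h7 : θ (bs (arc 0 r) 0 ((6 * r : ℝ) : S) D) (X Y α m) = X Y α m := by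
    rw [hsplit, h.setup.mul _ g1 _ g2]
    show θ _ (θ _ _) = _
    rw [f2, f1]
  have h8 := hN1' m (by rw [abs_of_nonneg (by omega)]; exact hmN1)
  simp only [Set.mem_ofPred_eq, not_not] at h8
  rw [h7] at h8
  have h9 : m • α = bs (arc 0 r) 0 ((6 * r : ℝ) : S) D (m • α) := Sum.inl_injective h8
  have h10 : m • α - 0 ∈ arc 0 r := by
    rw [sub_zero]
    exact (mem_arc (by linarith)).2 ⟨t, t0.le, t1, by rw [htm, zero_add]⟩
  rw [bs_apply, bsf_left h10, sub_zero] at h9
  have h11 : ((6 * r : ℝ) : S) = ((0 : ℝ) : S) := by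
    have : m • α + ((6 * r : ℝ) : S) = m • α + 0 := by rw [← h9, add_zero]
    exact add_left_cancel this
  have := coe_inj_of_lt h11 (by linarith) (by linarith)
  linarith

end Q78.CycF
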