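import Pool.Agent.Q78.CycF.Core
import Pool.Agent.Q78.Stab.Kap
import Pool.Agent.Q78.PCB.Main

/-! Arcs, locally constant functions, rotations of arcs. -/

namespace Q78.CycF

open Q78.PCB Q78.Stab Topology Set Filter

/-- the arc `[a, a + l)` -/
def arc (a : S) (l : ℝ) : Set S := {x | rep (x - a) < l}

theorem mem_arc {a : S} {l : ℝ} (hl : l ≤ 1) {x : S} :
    x ∈ arc a l ↔ ∃ t : ℝ, 0 ≤ t ∧ t < l ∧ x = a + (t : S) := by
  constructor
  · intro h
    exact ⟨rep (x - a), rep_nonneg _, h, by rw [coe_rep]; abel⟩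
  · rintro ⟨t, h0, h1, rfl⟩
    show rep _ < l
    rw [add_sub_cancel_left, rep_coe h0 (by linarith)]
    exact h1

theorem sub_mem_arc {a p x : S} {l : ℝ} : x - p ∈ arc a l ↔ x ∈ arc (a + p) l := by
  show rep _ < l ↔ rep _ < l
  rw [sub_sub, add_comm p a]

theorem arc_disj {a : S} {l l' r : ℝ} (h1 : l ≤ r) (h2 : r + l' ≤ 1) (hl' : 0 < l') {x : S}
    (hx : x ∈ arc a l) : x ∉ arc (a + (r : S)) l' := by
  intro hx'
  obtain ⟨t, t0, t1, rfl⟩ := (mem_arc (by linarith)).1 hx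
  obtain ⟨s, s0, s1, hs⟩ := (mem_arc (by linarith)).1 hx'
  have h3 : (t : S) = ((r + s : ℝ) : S) := by
    rw [AddCircle.coe_add]
    rw [add_assoc] at hs
    exact add_left_cancel hs
  obtain ⟨n, hn⟩ := (coe_eq_iff _ _).1 h3
  have h4 : (n : ℝ) < 0 := by linarith
  have h5 : (-1 : ℝ) < n := by linarith
  have h6 : n < 0 := by exact_mod_cast h4
  have h7 : -1 < n := by exact_mod_cast h5
  omega

theorem arc_sub {a : S} {l l' r : ℝ} (h0 : 0 ≤ r) (h1 : r + l' ≤ l) (h2 : l ≤ 1) {x : S}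
    (hx : x ∈ arc (a + (r : S)) l') : x ∈ arc a l := by
  obtain ⟨s, s0, s1, hs⟩ := (mem_arc (by linarith)).1 hx
  refine (mem_arc h2).2 ⟨r + s, by linarith, by linarith, ?_⟩
  rw [hs, AddCircle.coe_add, add_assoc]

/-- the open arc -/
def oarc (a : S) (l : ℝ) : Set S := (fun t : ℝ => a + (t : S)) '' Ioo 0 l

theorem isOpen_oarc (a : S) (l : ℝ) : IsOpen (oarc a l) := by
  have h1 : IsOpen ((fun t : ℝ => (t : S)) '' Ioo 0 l) :=
    QuotientAddGroup.isOpenMap_coe _ isOpen_Ioo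
  have h2 := (Homeomorph.addLeft a).isOpenMap _ h1
  rw [← image_comp] at h2
  exact h2

theorem oarc_nonempty (a : S) {l : ℝ} (hl : 0 < l) : (oarc a l).Nonempty :=
  ⟨_, l / 2, ⟨by linarith, by linarith⟩, rfl⟩

/-! ### Locally constant off a finite subset of `Λ` -/

variable {Λ : AddSubgroup S}

/-- locally constant off a finite subset of `Λ` -/
def LC (Λ : AddSubgroup S) {β : Type*} (δ : S → β) : Prop :=
  ∃ K : Set S, K.Finite ∧ K ⊆ Λ ∧ ∀ x ∉ K, ∀ᶠ y in 𝓝 x, δ y = δ x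

theorem LC.comp {β γ : Type*} {δ : S → β} (h : LC Λ δ) (F : β → γ) : LC Λ (fun x => F (δ x)) := by
  obtain ⟨K, h1, h2, h3⟩ := h
  refine ⟨K, h1, h2, fun x hx => ?_⟩
  filter_upwards [h3 x hx] with y hy
  rw [hy]

theorem LC.pair {β γ : Type*} {δ : S → β} {δ' : S → γ} (h : LC Λ δ) (h' : LC Λ δ') :
    LC Λ (fun x => (δ x, δ' x)) := by
  obtain ⟨K, h1, h2, h3⟩ := h
  obtain ⟨K', h1', h2', h3'⟩ := h'
  refine ⟨K ∪ K', h1.union h1', union_subset h2 h2', fun x hx => ?_⟩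
  rw [mem_union, not_or] at hx
  filter_upwards [h3 x hx.1, h3' x hx.2] with y hy hy'
  rw [hy, hy']

theorem LC_arc {a : S} {l : ℝ} (ha : a ∈ Λ) (hl : (l : S) ∈ Λ) : LC Λ (fun x => x ∈ arc a l) := by
  refine ⟨{a, a + (l : S)}, Set.toFinite _, ?_, fun x hx => ?_⟩
  · rintro x (rfl | rfl)
    · exact ha
    · exact Λ.add_mem ha hl
  · simp only [mem_insert_iff, mem_singleton_iff, not_or] at hx
    have h0 : x - a ≠ 0 := sub_ne_zero.2 hx.1
    have h1 : rep (x - a) ≠ l := by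
      intro h
      apply hx.2
      rw [← h, coe_rep]
      abel
    have hc : ContinuousAt (fun y => rep (y - a)) x :=
      (continuousAt_rep h0).comp_of_eq (continuous_sub_right a).continuousAt rfl
    rcases lt_or_gt_of_ne h1 with h | h
    · filter_upwards [hc.eventually (gt_mem_nhds h)] with y hy
      exact propext ⟨fun _ => h, fun _ => hy⟩
    · filter_upwards [hc.eventually (lt_mem_nhds h)] with y hy
      exact propext ⟨fun h' => absurd h' (not_lt.2 (le_of_lt hy)),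
        fun h' => absurd h' (not_lt.2 (le_of_lt h))⟩

theorem isPI_of_LC {f : Equiv.Perm S} {δ : S → S} (hf : ∀ x, f x = x + δ x) (hδ : ∀ x, δ x ∈ Λ)
    (h : LC Λ δ) : IsPI Λ f := by
  obtain ⟨K, h1, h2, h3⟩ := h
  refine ⟨K, h1, h2, fun x hx => ⟨δ x, hδ x, Or.inl ?_⟩⟩
  filter_upwards [h3 x hx] with y hy
  rw [hf, hy]

theorem isPI_bs {a p q : S} {l : ℝ} (ha : a ∈ Λ) (hl : (l : S) ∈ Λ) (hp : p ∈ Λ) (hq : q ∈ Λ)
    (hd : Dj (arc a l) p q) : IsPI Λ (bs (arc a l) p q hd) := by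
  classical
  refine isPI_of_LC (δ := fun x => if x - p ∈ arc a l then q - p else
    if x - q ∈ arc a l then p - q else 0) ?_ ?_ ?_
  · intro x
    rw [bs_apply]
    by_cases h1 : x - p ∈ arc a l
    · rw [bsf_left h1, if_pos h1]; abel
    · by_cases h2 : x - q ∈ arc a l
      · rw [bsf_right hd h2, if_neg h1, if_pos h2]; abel
      · rw [bsf_off h1 h2, if_neg h1, if_neg h2, add_zero]
  · intro x
    split_ifs
    · exact Λ.sub_mem hq hp
    · exact Λ.sub_mem hp hq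
    · exact Λ.zero_mem
  · have h1 := LC_arc (Λ := Λ) (Λ.add_mem ha hp) hl
    have h2 := LC_arc (Λ := Λ) (Λ.add_mem ha hq) hl
    have h3 := (h1.pair h2).comp (fun t : Prop × Prop => if t.1 then q - p else
      if t.2 then p - q else 0)
    convert h3 using 3
    · exact sub_mem_arc
    · exact if_congr sub_mem_arc rfl rfl

theorem isPI_tr {c : S} (hc : c ∈ Λ) : IsPI Λ (tr c) :=
  ⟨∅, Set.finite_empty, by simp, fun x _ => ⟨c, hc, Or.inl (Eventually.of_forall fun y => rfl)⟩⟩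

theorem isPI_refl : IsPI Λ PCB.refl :=
  ⟨∅, Set.finite_empty, by simp, fun x _ => ⟨0, Λ.zero_mem, Or.inr (Eventually.of_forall fun y => by
    rw [add_zero]; rfl)⟩⟩

/-! ### Rotations of arcs -/

open Classical in
/-- rotation of the arc `[a, a + L)` by `t`. -/
noncomputable def rotf (a : S) {L : ℝ} (hL : 0 < L) (t : ℝ) (x : S) : S :=
  if x ∈ arc a L then a + ((toIcoMod hL 0 (rep (x - a) + t) : ℝ) : S) else x

theorem rotf_in {a : S} {L : ℝ} (hL : 0 < L) (t : ℝ) {x : S} (hx : x ∈ arc a L) :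
    rotf a hL t x = a + ((toIcoMod hL 0 (rep (x - a) + t) : ℝ) : S) := if_pos hx

theorem rotf_out {a : S} {L : ℝ} (hL : 0 < L) (t : ℝ) {x : S} (hx : x ∉ arc a L) :
    rotf a hL t x = x := if_neg hx

theorem rep_rotf {a : S} {L : ℝ} (hL : 0 < L) (hL1 : L ≤ 1) (t : ℝ) {x : S} (hx : x ∈ arc a L) :
    rep (rotf a hL t x - a) = toIcoMod hL 0 (rep (x - a) + t) := by
  rw [rotf_in hL t hx, add_sub_cancel_left]
  have h := toIcoMod_mem_Ico' hL (rep (x - a) + t)
  exact rep_coe h.1 (by linarith [h.2])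

theorem rotf_mem {a : S} {L : ℝ} (hL : 0 < L) (hL1 : L ≤ 1) (t : ℝ) {x : S} (hx : x ∈ arc a L) :
    rotf a hL t x ∈ arc a L := by
  show rep _ < L
  rw [rep_rotf hL hL1 t hx]
  exact (toIcoMod_mem_Ico' hL _).2

theorem toIcoMod_add_mod {L : ℝ} (hL : 0 < L) (b t : ℝ) :
    toIcoMod hL 0 (toIcoMod hL 0 b + t) = toIcoMod hL 0 (b + t) := by
  rw [← self_sub_toIcoDiv_zsmul hL 0 b]
  have : b - toIcoDiv hL 0 b • L + t = (b + t) - toIcoDiv hL 0 b • L := by ring
  rw [this, toIcoMod_sub_zsmul]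

theorem rotf_add {a : S} {L : ℝ} (hL : 0 < L) (hL1 : L ≤ 1) (s t : ℝ) (x : S) :
    rotf a hL s (rotf a hL t x) = rotf a hL (s + t) x := by
  by_cases hx : x ∈ arc a L
  · rw [rotf_in hL s (rotf_mem hL hL1 t hx), rep_rotf hL hL1 t hx, toIcoMod_add_mod,
      rotf_in hL _ hx]
    congr 3
    ring
  · rw [rotf_out hL t hx, rotf_out hL s hx, rotf_out hL _ hx]

theorem rotf_zero {a : S} {L : ℝ} (hL : 0 < L) (x : S) : rotf a hL 0 x = x := by
  by_cases hx : x ∈ arc a L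
  · rw [rotf_in hL 0 hx, add_zero]
    have h1 : toIcoMod hL 0 (rep (x - a)) = rep (x - a) := by
      rw [toIcoMod_eq_self]
      exact ⟨rep_nonneg _, by rw [zero_add]; exact hx⟩
    rw [h1, coe_rep]
    abel
  · exact rotf_out hL 0 hx

/-- rotation of an arc, as a permutation -/
noncomputable def rot (a : S) {L : ℝ} (hL : 0 < L) (hL1 : L ≤ 1) (t : ℝ) : Equiv.Perm S :=
  ⟨rotf a hL t, rotf a hL (-t), fun x => by
    rw [rotf_add hL hL1, neg_add_cancel, rotf_zero], fun x => by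
    rw [rotf_add hL hL1, add_neg_cancel, rotf_zero]⟩

theorem rot_apply (a : S) {L : ℝ} (hL : 0 < L) (hL1 : L ≤ 1) (t : ℝ) (x : S) :
    rot a hL hL1 t x = rotf a hL t x := rfl

theorem rot_inv (a : S) {L : ℝ} (hL : 0 < L) (hL1 : L ≤ 1) (t : ℝ) :
    (rot a hL hL1 t)⁻¹ = rot a hL hL1 (-t) := by
  ext x
  rw [Equiv.Perm.inv_eq_iff_eq, rot_apply, rot_apply, rotf_add hL hL1, add_neg_cancel, rotf_zero]

theorem rot_add (a : S) {L : ℝ} (hL : 0 < L) (hL1 : L ≤ 1) (s t : ℝ) :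
    rot a hL hL1 (s + t) = rot a hL hL1 s * rot a hL hL1 t := by
  ext x
  rw [Equiv.Perm.mul_apply, rot_apply, rot_apply, rot_apply, rotf_add hL hL1]

theorem rot_zero (a : S) {L : ℝ} (hL : 0 < L) (hL1 : L ≤ 1) : rot a hL hL1 0 = 1 := by
  ext x
  rw [rot_apply, rotf_zero]
  rfl

theorem rot_zpow (a : S) {L : ℝ} (hL : 0 < L) (hL1 : L ≤ 1) (t : ℝ) (n : ℤ) :
    (rot a hL hL1 t) ^ n = rot a hL hL1 (n * t) := by
  induction n using Int.induction_on with
  | zero => rw [zpow_zero, Int.cast_zero, zero_mul, rot_zero]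
  | succ n ih =>
    rw [zpow_add_one, ih, ← rot_add]
    congr 1
    push_cast
    ring
  | pred n ih =>
    rw [zpow_sub_one, ih, rot_inv, ← rot_add]
    congr 1
    push_cast
    ring

theorem rot_sup (a : S) {L : ℝ} (hL : 0 < L) (hL1 : L ≤ 1) (t : ℝ) :
    Sup (arc a L) (rot a hL hL1 t) := fun x hx => rotf_out hL t hx

theorem isPI_rot {a : S} {L c : ℝ} (hL : 0 < L) (hL1 : L ≤ 1) (hc0 : 0 < c) (hcL : c < L)
    (ha : a ∈ Λ) (hLΛ : (L : S) ∈ Λ) (hcΛ : (c : S) ∈ Λ) : IsPI Λ (rot a hL hL1 c) := by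
  classical
  have hd : (((L - c : ℝ)) : S) ∈ Λ := by
    rw [AddCircle.coe_sub]; exact Λ.sub_mem hLΛ hcΛ
  refine isPI_of_LC (δ := fun x => if x ∈ arc a (L - c) then (c : S) else
    if x ∈ arc a L then (c : S) - (L : S) else 0) ?_ ?_ ?_
  · intro x
    rw [rot_apply]
    by_cases h1 : x ∈ arc a (L - c)
    · have h1' : rep (x - a) < L - c := h1
      have h2 : x ∈ arc a L := by
        show rep _ < L
        linarith
      rw [rotf_in hL c h2, if_pos h1]
      have h3 : toIcoMod hL 0 (rep (x - a) + c) = rep (x - a) + c := by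
        rw [toIcoMod_eq_self]
        exact ⟨by have := rep_nonneg (x - a); linarith, by linarith⟩
      rw [h3, AddCircle.coe_add, coe_rep]
      abel
    · have h1' : ¬ rep (x - a) < L - c := h1
      by_cases h2 : x ∈ arc a L
      · have h2' : rep (x - a) < L := h2
        rw [rotf_in hL c h2, if_neg h1, if_pos h2]
        have h3 : toIcoMod hL 0 (rep (x - a) + c) = rep (x - a) + c - L := by
          rw [toIcoMod_eq_iff]
          refine ⟨⟨by linarith, by linarith⟩, 1, ?_⟩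
          rw [one_smul]
          ring
        rw [h3, AddCircle.coe_sub, AddCircle.coe_add, coe_rep]
        abel
      · rw [rotf_out hL c h2, if_neg h1, if_neg h2, add_zero]
  · intro x
    split_ifs
    · exact hcΛ
    · exact Λ.sub_mem hcΛ hLΛ
    · exact Λ.zero_mem
  · have h1 := LC_arc (Λ := Λ) ha hd
    have h2 := LC_arc (Λ := Λ) ha hLΛ
    exact (h1.pair h2).comp (fun t : Prop × Prop => if t.1 then (c : S) else
      if t.2 then (c : S) - (L : S) else 0)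

theorem rot_inv_eq {a : S} {L c : ℝ} (hL : 0 < L) (hL1 : L ≤ 1) :
    (rot a hL hL1 c)⁻¹ = rot a hL hL1 (L - c) := by
  rw [rot_inv]
  ext x
  rw [rot_apply, rot_apply]
  by_cases hx : x ∈ arc a L
  · rw [rotf_in hL _ hx, rotf_in hL _ hx]
    have : rep (x - a) + (L - c) = rep (x - a) + -c + (1 : ℤ) • L := by
      rw [one_smul]; ring
    rw [this, toIcoMod_add_zsmul]
  · rw [rotf_out hL _ hx, rotf_out hL _ hx]

theorem rot_rec {a : S} {l L c : ℝ} (hL : 0 < L) (hL1 : L ≤ 1) (hl : 0 < l) (h3 : 3 * l ≤ L)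
    (hirr : Irrational (c / L)) (k : ℕ) (hk : 0 < k) :
    ∃ j : ℤ, ∀ x ∈ arc a l, ((rot a hL hL1 c) ^ ((k : ℤ) * j)) x ∉ arc a l := by
  have hirr2 : Irrational ((k * c) / L) := by
    have h1 : (k * c) / L = (k : ℝ) * (c / L) := by ring
    rw [h1]
    exact hirr.natCast_mul hk.ne'
  have hdense := AddCircle.denseRange_zsmul_coe_iff.2 hirr2
  have hopen : IsOpen ((fun t : ℝ => (t : AddCircle L)) '' Ioo l (L - l)) :=
    QuotientAddGroup.isOpenMap_coe _ isOpen_Ioo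
  have hne : ((fun t : ℝ => (t : AddCircle L)) '' Ioo l (L - l)).Nonempty :=
    ⟨_, L / 2, ⟨by linarith, by linarith⟩, rfl⟩
  obtain ⟨j, s, hs, hsj⟩ := hdense.exists_mem_open hopen hne
  have h1 : (((j : ℝ) * (k * c) : ℝ) : AddCircle L) = (s : AddCircle L) := by
    have h2 : (j : ℝ) * (k * c) = j • ((k : ℝ) * c) := by rw [zsmul_eq_mul]
    rw [h2, AddCircle.coe_zsmul]
    exact hsj.symm
  have h1' := QuotientAddGroup.eq.1 h1.symm
  obtain ⟨n, hn⟩ := AddSubgroup.mem_zmultiples_iff.1 h1'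
  refine ⟨j, fun x hx hcon => ?_⟩
  have hx' : rep (x - a) < l := hx
  have hxL : x ∈ arc a L := by
    show rep _ < L
    linarith
  rw [rot_zpow, rot_apply] at hcon
  have hcon' : rep (rotf a hL (((k : ℤ) * j : ℤ) * c) x - a) < l := hcon
  rw [rep_rotf hL hL1 _ hxL] at hcon'
  have h0 := rep_nonneg (x - a)
  have h5 : toIcoMod hL 0 (rep (x - a) + (((k : ℤ) * j : ℤ) : ℝ) * c) = rep (x - a) + s := by
    rw [toIcoMod_eq_iff]
    refine ⟨⟨by linarith [hs.1], by linarith [hs.2]⟩, n, ?_⟩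
    have : -s + (j : ℝ) * (k * c) = n • L := hn.symm
    push_cast
    linarith
  rw [h5] at hcon'
  linarith [hs.1]

/-! ### Density -/

variable {α : S}

theorem dens_big (hα : addOrderOf α = 0) (N : ℤ) {O : Set S} (hO : IsOpen O) (hne : O.Nonempty) :
    ∃ k : ℤ, N ≤ |k| ∧ k • α ∈ O := by
  have hdense : DenseRange (fun k : ℤ => k • α) := AddCircle.denseRange_zsmul_iff.2 hα
  have hfin : ((fun k : ℤ => k • α) '' Ioo (-N) N).Finite := (Set.finite_Ioo _ _).image _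
  have hperf : ∀ x : S, (𝓝[≠] x).NeBot := perfect
  have hd := Dense.sdiff_finite (s := range (fun k : ℤ => k • α)) hdense hfin
  obtain ⟨x, hxO, ⟨k, rfl⟩, hk⟩ := hd.inter_open_nonempty O hO hne
  refine ⟨k, ?_, hxO⟩
  by_contra hcon
  rw [not_le, abs_lt] at hcon
  exact hk ⟨k, ⟨hcon.1, hcon.2⟩, rfl⟩

theorem dens_pos (hα : addOrderOf α = 0) (N : ℤ) {O : Set S} (hO : IsOpen O) (hne : O.Nonempty) :
    ∃ k : ℤ, N ≤ k ∧ k • α ∈ O := by
  obtain ⟨k0, _, hk0⟩ := dens_big hα 0 hO hne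
  let V : Set S := {v | k0 • α + v ∈ O} ∩ {v | k0 • α - v ∈ O}
  have hV : IsOpen V :=
    (hO.preimage (continuous_const.add continuous_id)).inter
      (hO.preimage (continuous_const.sub continuous_id))
  have hV0 : V.Nonempty := ⟨0, by
    constructor
    · show k0 • α + 0 ∈ O
      rwa [add_zero]
    · show k0 • α - 0 ∈ O
      rwa [sub_zero]⟩
  obtain ⟨k1, h1, h2⟩ := dens_big hα (N + |k0|) hV hV0
  refine ⟨k0 + |k1|, by linarith [neg_abs_le k0], ?_⟩
  rcases abs_choice k1 with h | h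
  · rw [h, add_smul]
    exact h2.1
  · rw [h, add_smul, neg_smul, ← sub_eq_add_neg]
    exact h2.2

theorem exists_len (hα : addOrderOf α = 0) {ε : ℝ} (hε : 0 < ε) :
    ∃ r : ℝ, 0 < r ∧ r < ε ∧ (r : S) ∈ AddSubgroup.zmultiples α := by
  obtain ⟨k, _, t, ht, hk⟩ := dens_big hα 0 (isOpen_oarc 0 ε) (oarc_nonempty 0 hε)
  refine ⟨t, ht.1, ht.2, ?_⟩
  have : (0 : S) + (t : S) = k • α := hk
  rw [zero_add] at this
  rw [this]
  exact AddSubgroup.zsmul_mem_zmultiples α k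

theorem zsmul_inj (hα : addOrderOf α = 0) {m n : ℤ} (h : m • α = n • α) : m = n := by
  have h1 : (m - n) • α = 0 := by rw [sub_smul, h, sub_self]
  have h2 := addOrderOf_dvd_iff_zsmul_eq_zero.2 h1
  rw [hα, Int.natCast_zero, zero_dvd_iff] at h2
  linarith

theorem irr (hα : addOrderOf α = 0) {c L : ℝ} {m m' : ℤ} (h0 : 0 < c) (h1 : c < L) (hL : L ≤ 1)
    (hc : (c : S) = m • α) (hL' : (L : S) = m' • α) (hm : |m'| ≤ |m|) : Irrational (c / L) := by
  rintro ⟨q, hq⟩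
  have hLpos : 0 < L := by linarith
  have hq0 : 0 < (q : ℝ) := by rw [hq]; positivity
  have hq1 : (q : ℝ) < 1 := by rw [hq, div_lt_one hLpos]; exact h1
  have hq0' : 0 < q := by exact_mod_cast hq0
  have hq1' : q < 1 := by exact_mod_cast hq1
  have hnum : 0 < q.num := Rat.num_pos.2 hq0'
  have hlt : q.num < q.den := by
    have := Rat.num_lt_denom_iff.2 hq1'
    exact this
  have hden : (0 : ℝ) < (q.den : ℝ) := by exact_mod_cast q.den_pos
  have hqe : (q : ℝ) = q.num / q.den := by exact_mod_cast (Rat.num_div_den q).symm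
  have h3 : (q.den : ℝ) * c = q.num * L := by
    rw [hqe] at hq
    rw [div_eq_div_iff hden.ne' hLpos.ne'] at hq
    linarith
  have h4 : ((q.den : ℤ) * m) • α = (q.num * m') • α := by
    rw [mul_smul, mul_smul, ← hc, ← hL', ← AddCircle.coe_zsmul, ← AddCircle.coe_zsmul]
    congr 1
    rw [zsmul_eq_mul, zsmul_eq_mul]
    push_cast
    exact h3
  have h5 := zsmul_inj hα h4
  have h6 : (q.den : ℤ) * |m| = q.num * |m'| := by
    have := congrArg abs h5
    rw [abs_mul, abs_mul, abs_of_pos hnum, Nat.abs_cast] at this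
    exact this
  have hm0 : 0 < |m| := by
    rw [abs_pos]
    rintro rfl
    rw [zero_smul] at hc
    have h7 : (c : S) = ((0 : ℝ) : S) := hc
    obtain ⟨n, hn⟩ := (coe_eq_iff _ _).1 h7
    have h8 : (0 : ℝ) < n := by linarith
    have h9 : (n : ℝ) < 1 := by linarith
    have h10 : 0 < n := by exact_mod_cast h8
    have h11 : n < 1 := by exact_mod_cast h9
    omega
  nlinarith [abs_nonneg m']

end Q78.CycF
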