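import Pool.Agent.Q78.CycF.Contra

/-! The groups of interval exchanges with flips over a subgroup with an element of infinite order
are not stably realizable. -/

namespace Q78.CycF

open Q78.PCB Q78.Stab Topology Set Filter

universe u

theorem isPI_cofin {Λ : AddSubgroup S} {f : Equiv.Perm S} (h : IsPI Λ f) : CofinContinuous f := by
  obtain ⟨K, h1, _, h3⟩ := h
  refine h1.subset ?_
  intro x hx
  by_contra hcon
  apply hx
  obtain ⟨c, _, hc | hc⟩ := h3 x hcon
  · exact (continuous_add_const c).continuousAt.congr (hc.mono fun y hy => hy.symm)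
  · exact ((continuous_neg.add continuous_const).continuousAt (x := x)).congr
      (hc.mono fun y hy => hy.symm)

theorem isPI_mono {Λ Λ' : AddSubgroup S} (hle : Λ ≤ Λ') {f : Equiv.Perm S} (h : IsPI Λ f) :
    IsPI Λ' f := by
  obtain ⟨K, h1, h2, h3⟩ := h
  refine ⟨K, h1, fun x hx => hle (h2 hx), fun x hx => ?_⟩
  obtain ⟨c, hc, hc'⟩ := h3 x hx
  exact ⟨c, hle hc, hc'⟩

open Classical in
/-- the lift as a total function -/
noncomputable def thet {Γ : Subgroup PCBow} {Y : Type u} (ρ : Γ →* Equiv.Perm (S ⊕ Y))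
    (f : Equiv.Perm S) : Equiv.Perm (S ⊕ Y) :=
  if h : ∃ hf : f ∈ PCSub, proj ⟨f, hf⟩ ∈ Γ then ρ ⟨proj ⟨f, h.choose⟩, h.choose_spec⟩ else 1

theorem proj_mul' {f g : Equiv.Perm S} (hf : f ∈ PCSub) (hg : g ∈ PCSub) :
    proj ⟨f * g, PCSub.mul_mem hf hg⟩ = proj ⟨f, hf⟩ * proj ⟨g, hg⟩ :=
  map_mul proj (⟨f, hf⟩ : PC) (⟨g, hg⟩ : PC)

theorem proj_inv' {f : Equiv.Perm S} (hf : f ∈ PCSub) :
    proj ⟨f⁻¹, PCSub.inv_mem hf⟩ = (proj ⟨f, hf⟩)⁻¹ :=
  map_inv proj (⟨f, hf⟩ : PC)

/-- the group of permutations whose class is in `Γ` -/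
def GG (Γ : Subgroup PCBow) : Subgroup (Equiv.Perm S) where
  carrier := {f | ∃ hf : f ∈ PCSub, proj ⟨f, hf⟩ ∈ Γ}
  mul_mem' := by
    rintro f g ⟨hf, hf'⟩ ⟨hg, hg'⟩
    exact ⟨PCSub.mul_mem hf hg, by
      rw [proj_mul' hf hg]
      exact Γ.mul_mem hf' hg'⟩
  one_mem' := ⟨PCSub.one_mem, by
    have := Γ.one_mem
    rw [← map_one proj] at this
    exact this⟩
  inv_mem' := by
    rintro f ⟨hf, hf'⟩
    exact ⟨PCSub.inv_mem hf, by
      rw [proj_inv' hf]
      exact Γ.inv_mem hf'⟩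

theorem thet_eq {Γ : Subgroup PCBow} {Y : Type u} (ρ : Γ →* Equiv.Perm (S ⊕ Y))
    {f : Equiv.Perm S} (hf : f ∈ PCSub) (h : proj ⟨f, hf⟩ ∈ Γ) :
    thet ρ f = ρ ⟨proj ⟨f, hf⟩, h⟩ := by
  unfold thet
  exact dif_pos ⟨hf, h⟩

theorem not_stably {Λ : AddSubgroup S} {α : S} (hα : α ∈ Λ) (hord : addOrderOf α = 0)
    {Γ : Subgroup PCBow} (hΓ : IETB Λ ⊆ (Γ : Set PCBow)) : ¬ StablyRealizable.{u} Γ := by
  rintro ⟨Y, ρ, hρ⟩
  have hle : AddSubgroup.zmultiples α ≤ Λ := by
    rw [AddSubgroup.zmultiples_le]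
    exact hα
  have hstd : Std Y (GG Γ) (thet ρ) α :=
    { setup :=
      { mul := by
          rintro f ⟨hf, hf'⟩ g ⟨hg, hg'⟩
          have h1 : proj ⟨f * g, PCSub.mul_mem hf hg⟩ ∈ Γ := by
            rw [proj_mul' hf hg]
            exact Γ.mul_mem hf' hg'
          rw [thet_eq ρ hf hf', thet_eq ρ hg hg', thet_eq ρ (PCSub.mul_mem hf hg) h1, ← map_mul]
          rfl
        near := by
          rintro f ⟨hf, hf'⟩
          rw [thet_eq ρ hf hf']
          exact hρ ⟨f, hf⟩ hf'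
        fin := by
          intro f hf
          have hcf : ∀ g : Equiv.Perm S, {x | g x ≠ x}.Finite → CofinContinuous g := by
            intro g hg
            refine hg.subset ?_
            intro x hx hcon
            apply hx
            have hopen : {y : S | g y ≠ y}ᶜ ∈ 𝓝 x :=
              hg.isClosed.isOpen_compl.mem_nhds (fun h => h hcon)
            refine (continuousAt_id (x := x)).congr ?_
            filter_upwards [hopen] with y hy
            simp only [Set.mem_compl_iff, Set.mem_ofPred_eq, not_not] at hy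
            exact hy.symm
          have hfin' : {x | f⁻¹ x ≠ x}.Finite := by
            refine hf.subset ?_
            intro x hx hcon
            apply hx
            rw [Equiv.Perm.inv_eq_iff_eq]
            exact hcon.symm
          have hmem : f ∈ PCSub := ⟨hcf f hf, hcf _ hfin'⟩
          have h1 : proj ⟨f, hmem⟩ = 1 := by
            have : (⟨f, hmem⟩ : PC) ∈ FinSupp := hf
            exact (QuotientGroup.eq_one_iff _).2 this
          have h2 : proj ⟨f, hmem⟩ ∈ Γ := by rw [h1]; exact Γ.one_mem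
          refine ⟨⟨hmem, h2⟩, ?_⟩
          rw [thet_eq ρ hmem h2]
          have h3 : (⟨proj ⟨f, hmem⟩, h2⟩ : Γ) = 1 := Subtype.ext h1
          rw [h3, map_one] }
      ord := hord
      big := by
        intro f hf hf'
        have hmem : f ∈ PCSub := ⟨isPI_cofin hf, isPI_cofin hf'⟩
        exact ⟨hmem, hΓ ⟨⟨f, hmem⟩, isPI_mono hle hf, rfl⟩⟩ }
  exact hstd.false

theorem not_real {Λ : AddSubgroup S} {α : S} (hα : α ∈ Λ) (hord : addOrderOf α = 0)
    {Γ : Subgroup PCBow} (hΓ : IETB Λ ⊆ (Γ : Set PCBow)) : ¬ Realizable Γ := by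
  rintro ⟨L, hL⟩
  apply not_stably.{0} hα hord hΓ
  -- the inverse homomorphism
  let φ : L →* Γ :=
    { toFun := fun g => ⟨proj g.1, hL.mapsTo g.2⟩
      map_one' := Subtype.ext (map_one proj)
      map_mul' := fun a b => Subtype.ext (map_mul proj a.1 b.1) }
  have hφ : Function.Bijective φ := by
    constructor
    · intro a b hab
      exact Subtype.ext (hL.injOn a.2 b.2 (congrArg Subtype.val hab))
    · rintro ⟨g, hg⟩
      obtain ⟨f, hf, hfg⟩ := hL.surjOn hg
      exact ⟨⟨f, hf⟩, Subtype.ext hfg⟩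
  let e : L ≃* Γ := MulEquiv.ofBijective φ hφ
  let ψ : L →* Equiv.Perm (S ⊕ Empty) :=
    { toFun := fun g => Equiv.sumCongr (perm g.1) (Equiv.refl Empty)
      map_one' := by
        ext z
        rcases z with z | z
        · rfl
        · exact z.elim
      map_mul' := fun a b => by
        ext z
        rcases z with z | z
        · rfl
        · exact z.elim }
  refine ⟨Empty, ψ.comp e.symm.toMonoidHom, fun f h => ?_⟩
  obtain ⟨g, hg⟩ := hφ.2 ⟨proj f, h⟩
  have h1 : e.symm ⟨proj f, h⟩ = g := by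
    rw [MulEquiv.symm_apply_eq]
    exact hg.symm
  have h2 : proj g.1 = proj f := congrArg Subtype.val hg
  have h3 := near_of_proj h2
  refine (h3.image Sum.inl).subset ?_
  rintro (z | z) hz
  · refine ⟨z, ?_, rfl⟩
    intro hcon
    apply hz
    show ψ (e.symm ⟨proj f, h⟩) (Sum.inl z) = _
    rw [h1]
    show Sum.inl (perm g.1 z) = Sum.inl (perm f z)
    rw [hcon]
  · exact z.elim

/-- Neither realizable nor stably realizable. -/
theorem main (Λ : AddSubgroup S) (hΛ : ∃ a ∈ Λ, addOrderOf a = 0) (Γ : Subgroup PCBow)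
    (hΓ : IETB Λ ⊆ (Γ : Set PCBow)) : ¬ Realizable Γ ∧ ¬ StablyRealizable.{u} Γ := by
  obtain ⟨α, hα, hord⟩ := hΛ
  exact ⟨not_real hα hord hΓ, not_stably hα hord hΓ⟩

end Q78.CycF
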