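import Pool.Agent.Q78.CycF.Geo

/-! The contradiction for a lift. -/

namespace Q78.CycF

open Q78.PCB Q78.Stab Topology Set Filter

universe u

variable {Y : Type u} {G : Subgroup (Equiv.Perm S)} {θ : Equiv.Perm S → Equiv.Perm (S ⊕ Y)}
  {α : S}

/-- standing assumptions -/
structure Std (Y : Type u) (G : Subgroup (Equiv.Perm S)) (θ : Equiv.Perm S → Equiv.Perm (S ⊕ Y))
    (α : S) : Prop where
  setup : Setup G θ
  ord : addOrderOf α = 0
  big : ∀ f, IsPI (AddSubgroup.zmultiples α) f → IsPI (AddSubgroup.zmultiples α) f⁻¹ → f ∈ G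

theorem Std.tr_mem (h : Std Y G θ α) (k : ℤ) : tr (k • α) ∈ G := by
  have hk : ∀ k : ℤ, k • α ∈ AddSubgroup.zmultiples α :=
    fun k => AddSubgroup.zsmul_mem_zmultiples α k
  refine h.big _ (isPI_tr (hk k)) ?_
  rw [tr_inv]
  exact isPI_tr (AddSubgroup.neg_mem _ (hk k))

theorem Std.refl_mem (h : Std Y G θ α) : PCB.refl ∈ G := by
  refine h.big _ isPI_refl ?_
  have : (PCB.refl)⁻¹ = PCB.refl := rfl
  rw [this]
  exact isPI_refl

theorem Std.bs_mem (h : Std Y G θ α) {a p q : S} {l : ℝ} (ha : a ∈ AddSubgroup.zmultiples α)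
    (hl : (l : S) ∈ AddSubgroup.zmultiples α) (hp : p ∈ AddSubgroup.zmultiples α)
    (hq : q ∈ AddSubgroup.zmultiples α) (hd : Dj (arc a l) p q) : bs (arc a l) p q hd ∈ G :=
  h.big _ (isPI_bs ha hl hp hq hd) (by rw [bs_inv]; exact isPI_bs ha hl hp hq hd)

/-- exclusion for arcs -/
theorem Std.ex (h : Std Y G θ α) {a : S} {l : ℝ} (ha : a ∈ AddSubgroup.zmultiples α)
    (hl : (l : S) ∈ AddSubgroup.zmultiples α) (l0 : 0 < l) (l1 : 3 * l ≤ 1) {B : Set S}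
    (hB : ∀ x ∈ arc a (3 * l), x ∉ B) {v : Equiv.Perm S} (hv : v ∈ G) (sv : Sup B v)
    {x : S ⊕ Y} (hx : θ v x ≠ x) : ¬ Mv G θ (arc a l) x := by
  have hL : 0 < 3 * l := by linarith
  have hLΛ : ((3 * l : ℝ) : S) ∈ AddSubgroup.zmultiples α := by
    have : ((3 * l : ℝ) : S) = (3 : ℤ) • (l : S) := by
      rw [← AddCircle.coe_zsmul, zsmul_eq_mul]; norm_num
    rw [this]
    exact AddSubgroup.zsmul_mem _ hl 3
  obtain ⟨m', hm'⟩ := AddSubgroup.mem_zmultiples_iff.1 hLΛ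
  obtain ⟨m, hm, c, ⟨c0, c1⟩, hc⟩ := dens_big h.ord |m'| (isOpen_oarc 0 (3 * l))
    (oarc_nonempty 0 hL)
  have hc' : (c : S) = m • α := by
    have : (0 : S) + (c : S) = m • α := hc
    rwa [zero_add] at this
  have hcΛ : (c : S) ∈ AddSubgroup.zmultiples α := by
    rw [hc']; exact AddSubgroup.zsmul_mem_zmultiples α m
  have hirr : Irrational (c / (3 * l)) := irr h.ord c0 c1 l1 hc' hm'.symm hm
  have hg : rot a hL l1 c ∈ G := by
    refine h.big _ (isPI_rot hL l1 c0 c1 ha hLΛ hcΛ) ?_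
    rw [rot_inv_eq]
    refine isPI_rot hL l1 (by linarith) (by linarith) ha hLΛ ?_
    rw [AddCircle.coe_sub]
    exact AddSubgroup.sub_mem _ hLΛ hcΛ
  refine excl h.setup (U := arc a (3 * l)) (B := B) (Set.disjoint_left.2 hB) ?_ hg hv
    (rot_sup a hL l1 c) sv (rot_rec hL l1 l0 le_rfl hirr) hx
  intro z hz
  have : rep (z - a) < l := hz
  show rep (z - a) < 3 * l
  linarith

/-- the points `n α` -/
def X (Y : Type u) (α : S) (n : ℤ) : S ⊕ Y := Sum.inl (n • α)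

theorem X_inj (hα : addOrderOf α = 0) : Function.Injective (X Y α) := by
  intro m n hmn
  exact zsmul_inj hα (Sum.inl_injective hmn)

theorem finite_bound {F : Set ℤ} (hF : F.Finite) : ∃ N : ℤ, 0 < N ∧ ∀ n, N ≤ |n| → n ∉ F := by
  obtain ⟨b, hb⟩ := (hF.image (fun n => |n|)).bddAbove
  refine ⟨max b 0 + 1, by positivity, fun n hn hnF => ?_⟩
  have h1 : |n| ≤ b := hb ⟨n, hnF, rfl⟩
  have h2 : b ≤ max b 0 := le_max_left _ _
  linarith

theorem bad_bound (hα : addOrderOf α = 0) {F : Set (S ⊕ Y)} (hF : F.Finite) :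
    ∃ N : ℤ, 0 < N ∧ ∀ n, N ≤ |n| → X Y α n ∉ F :=
  finite_bound (hF.preimage (X_inj hα).injOn)

theorem Std.start (h : Std Y G θ α) : ∃ N : ℤ, 0 < N ∧ (∀ n, N ≤ |n| →
    θ (tr α) (X Y α n) = X Y α (n + 1) ∧ θ PCB.refl (X Y α n) = X Y α (-n)) := by
  have h1 : tr α ∈ G := by have := h.tr_mem 1; rwa [one_smul] at this
  obtain ⟨N, hN, hN'⟩ := bad_bound h.ord ((h.setup.near _ h1).union (h.setup.near _ h.refl_mem))
  refine ⟨N, hN, fun n hn => ?_⟩
  have h2 := hN' n hn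
  simp only [Set.mem_union, Set.mem_ofPred_eq, not_or, not_not] at h2
  constructor
  · rw [h2.1]
    show Sum.inl (n • α + α) = Sum.inl ((n + 1) • α)
    rw [add_smul, one_smul]
  · rw [h2.2]
    show Sum.inl (-(n • α)) = Sum.inl ((-n) • α)
    rw [neg_smul]

theorem Std.tr_add (h : Std Y G θ α) (i j : ℤ) (z : S ⊕ Y) :
    θ (tr (i • α)) (θ (tr (j • α)) z) = θ (tr ((i + j) • α)) z := by
  have h1 : tr ((i + j) • α) = tr (i • α) * tr (j • α) := by
    rw [tr_mul, add_smul, add_comm]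
  rw [h1, h.setup.mul _ (h.tr_mem i) _ (h.tr_mem j)]
  rfl

theorem Std.tr_zero (h : Std Y G θ α) (z : S ⊕ Y) : θ (tr ((0 : ℤ) • α)) z = z := by
  have h1 : tr ((0 : ℤ) • α) = 1 := by
    ext x
    rw [tr_apply, zero_smul, add_zero]
    rfl
  rw [h1, h.setup.one]
  rfl

theorem Std.shift (h : Std Y G θ α) {N : ℤ} (hN : 0 < N) (hN' : ∀ n, N ≤ |n| →
    θ (tr α) (X Y α n) = X Y α (n + 1) ∧ θ PCB.refl (X Y α n) = X Y α (-n)) {n : ℤ} (hn : N ≤ n)
    (j : ℕ) : θ (tr ((j : ℤ) • α)) (X Y α n) = X Y α (n + j) := by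
  induction j with
  | zero =>
    rw [Int.natCast_zero, h.tr_zero, add_zero]
  | succ j ih =>
    have h1 : ((j + 1 : ℕ) : ℤ) = 1 + (j : ℤ) := by push_cast; ring
    rw [h1, ← h.tr_add, ih, one_smul]
    have h2 : N ≤ |n + j| := by
      rw [abs_of_nonneg (by omega)]
      omega
    rw [(hN' _ h2).1]
    congr 1
    ring

theorem Std.shift' (h : Std Y G θ α) {N : ℤ} (hN : 0 < N) (hN' : ∀ n, N ≤ |n| →
    θ (tr α) (X Y α n) = X Y α (n + 1) ∧ θ PCB.refl (X Y α n) = X Y α (-n)) {n m : ℤ} (hn : N ≤ n)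
    (hnm : n ≤ m) : θ (tr ((m - n) • α)) (X Y α n) = X Y α m := by
  obtain ⟨j, hj⟩ := Int.eq_ofNat_of_zero_le (show 0 ≤ m - n by omega)
  rw [hj, h.shift hN hN' hn]
  congr 1
  omega

theorem Std.shift_back (h : Std Y G θ α) {N : ℤ} (hN : 0 < N) (hN' : ∀ n, N ≤ |n| →
    θ (tr α) (X Y α n) = X Y α (n + 1) ∧ θ PCB.refl (X Y α n) = X Y α (-n)) {n m : ℤ} (hn : N ≤ n)
    (hnm : n ≤ m) : θ (tr ((n - m) • α)) (X Y α m) = X Y α n := by
  rw [← h.shift' hN hN' hn hnm, h.tr_add]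
  have : n - m + (m - n) = 0 := by ring
  rw [this, h.tr_zero]

/-- transport by a translation -/
theorem Std.mv_tr (h : Std Y G θ α) {a : S} {l : ℝ} {x : S ⊕ Y} (k : ℤ)
    (hx : Mv G θ (arc a l) x) : Mv G θ (arc (a + k • α) l) (θ (tr (k • α)) x) := by
  refine hx.transport h.setup (h.tr_mem k) ?_
  intro z hz
  show rep (z + k • α - (a + k • α)) < l
  rw [add_sub_add_right_eq_sub]
  exact hz

theorem mem_zm (k : ℤ) : k • α ∈ AddSubgroup.zmultiples α := AddSubgroup.zsmul_mem_zmultiples α k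

theorem coe_mul_mem {r : ℝ} (hr : (r : S) ∈ AddSubgroup.zmultiples α) (k : ℤ) :
    (((k : ℝ) * r : ℝ) : S) ∈ AddSubgroup.zmultiples α := by
  have : (((k : ℝ) * r : ℝ) : S) = k • (r : S) := by
    rw [← AddCircle.coe_zsmul, zsmul_eq_mul]
  rw [this]
  exact AddSubgroup.zsmul_mem _ hr k

/-- points of a block are moved -/
theorem Std.mvpt (h : Std Y G θ α) {r : ℝ} (r0 : 0 < r) (r1 : 3 * r ≤ 1)
    (hr : (r : S) ∈ AddSubgroup.zmultiples α) :
    ∃ F : Set (S ⊕ Y), F.Finite ∧ ∀ z ∈ arc 0 r, (Sum.inl z : S ⊕ Y) ∉ F →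
      Mv G θ (arc 0 (3 * r)) (Sum.inl z) := by
  have h2r : ((2 * r : ℝ) : S) ∈ AddSubgroup.zmultiples α := by
    have := coe_mul_mem hr 2
    simpa using this
  have z0 : (0 : S) ∈ AddSubgroup.zmultiples α := AddSubgroup.zero_mem _
  have D01 : Dj (arc 0 r) 0 (r : S) := by
    intro x h1 h2
    rw [sub_mem_arc] at h1 h2
    rw [add_zero] at h1
    exact arc_disj le_rfl (by linarith) r0 h1 h2
  have D02 : ∀ x, x ∈ arc 0 r → x ∉ arc (0 + ((2 * r : ℝ) : S)) r :=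
    fun x h1 => arc_disj (by linarith) (by linarith) r0 h1
  have D12 : Dj (arc 0 r) (r : S) ((2 * r : ℝ) : S) := by
    intro x h1 h2
    rw [sub_mem_arc] at h1 h2
    have e : (0 : S) + ((2 * r : ℝ) : S) = 0 + (r : S) + (r : S) := by
      rw [two_mul, AddCircle.coe_add, add_assoc]
    rw [e] at h2
    exact arc_disj le_rfl (by linarith) r0 h1 h2
  let c := bs (arc 0 r) 0 (r : S) D01
  let d := bs (arc 0 r) (r : S) ((2 * r : ℝ) : S) D12
  have hc : c ∈ G := h.bs_mem z0 hr z0 hr _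
  have hd : d ∈ G := h.bs_mem z0 hr hr h2r _
  have s0 : ∀ x, x - 0 ∈ arc 0 r → x ∈ arc 0 (3 * r) := by
    intro x hx
    rw [sub_zero] at hx
    have : rep (x - 0) < r := hx
    show rep (x - 0) < 3 * r
    linarith
  have s1 : ∀ x, x - (r : S) ∈ arc 0 r → x ∈ arc 0 (3 * r) := by
    intro x hx
    rw [sub_mem_arc] at hx
    exact arc_sub r0.le (by linarith) r1 hx
  have s2 : ∀ x, x - ((2 * r : ℝ) : S) ∈ arc 0 r → x ∈ arc 0 (3 * r) := by
    intro x hx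
    rw [sub_mem_arc] at hx
    exact arc_sub (by linarith) (by linarith) r1 hx
  refine ⟨{z | θ (c * d) z ≠ xt Y (c * d) z} ∪ {z | θ (d * c) z ≠ xt Y (d * c) z},
    (h.setup.near _ (G.mul_mem hc hd)).union (h.setup.near _ (G.mul_mem hd hc)), ?_⟩
  intro z hz hzF
  simp only [Set.mem_union, Set.mem_ofPred_eq, not_or, not_not] at hzF
  refine ⟨c, hc, bs_sup _ s0 s1, d, hd, bs_sup _ s1 s2, ?_⟩
  have e1 : θ c (θ d (Sum.inl z)) = Sum.inl (c (d z)) := by
    have := hzF.1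
    rw [h.setup.mul _ hc _ hd] at this
    exact this
  have e2 : θ d (θ c (Sum.inl z)) = Sum.inl (d (c z)) := by
    have := hzF.2
    rw [h.setup.mul _ hd _ hc] at this
    exact this
  rw [e1, e2]
  intro hcon
  have hcon' := Sum.inl_injective hcon
  have hz0 : z - 0 ∈ arc 0 r := by rwa [sub_zero]
  have hz1 : z - (r : S) ∉ arc 0 r := D01 z hz0
  have hz2 : z - ((2 * r : ℝ) : S) ∉ arc 0 r := by
    rw [sub_mem_arc]
    exact D02 z hz
  have f1 : d z = z := bsf_off hz1 hz2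
  have f2 : c z = z - 0 + (r : S) := bsf_left hz0
  have f3 : d (z - 0 + (r : S)) = z - 0 + (r : S) - (r : S) + ((2 * r : ℝ) : S) :=
    bsf_left (by rwa [add_sub_cancel_right])
  rw [f1, f2, f3, add_sub_cancel_right] at hcon'
  have h5 : (r : S) = ((2 * r : ℝ) : S) := add_left_cancel hcon'
  obtain ⟨n, hn⟩ := (coe_eq_iff _ _).1 h5
  have h6 : (n : ℝ) < 0 := by linarith
  have h7 : (-1 : ℝ) < n := by linarith
  have h8 : n < 0 := by exact_mod_cast h6
  have h9 : -1 < n := by exact_mod_cast h7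
  omega

theorem oarc_sub {a x : S} {l : ℝ} (hl : l ≤ 1) (hx : x ∈ oarc a l) : x ∈ arc a l := by
  obtain ⟨t, ht, rfl⟩ := hx
  exact (mem_arc hl).2 ⟨t, ht.1.le, ht.2, rfl⟩

/-- small arcs around `n α` move it -/
theorem Std.small (h : Std Y G θ α) {N : ℤ} (hN : 0 < N) (hN' : ∀ n, N ≤ |n| →
    θ (tr α) (X Y α n) = X Y α (n + 1) ∧ θ PCB.refl (X Y α n) = X Y α (-n)) {n : ℤ} (hn : N ≤ n)
    {ε : ℝ} (hε : 0 < ε) : ∃ (a : S) (l : ℝ), a ∈ AddSubgroup.zmultiples α ∧ 0 < l ∧ l < ε ∧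
      (l : S) ∈ AddSubgroup.zmultiples α ∧ n • α ∈ arc a l ∧ Mv G θ (arc a l) (X Y α n) := by
  obtain ⟨r, r0, r1, hr⟩ := exists_len h.ord (show 0 < min (ε / 3) (1 / 3) by positivity)
  have r2 : 3 * r < ε := by
    have := min_le_left (ε / 3) (1 / 3)
    linarith
  have r3 : 3 * r ≤ 1 := by
    have := min_le_right (ε / 3) (1 / 3)
    linarith
  obtain ⟨F, hF, hF'⟩ := h.mvpt r0 r3 hr
  obtain ⟨N1, hN1, hN1'⟩ := bad_bound h.ord hF
  obtain ⟨m, hm, hmO⟩ := dens_pos h.ord (max n N1) (isOpen_oarc 0 r) (oarc_nonempty 0 r0)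
  have hmn : n ≤ m := (le_max_left _ _).trans hm
  have hmN : N1 ≤ m := (le_max_right _ _).trans hm
  have h1 : Mv G θ (arc 0 (3 * r)) (X Y α m) :=
    hF' _ (oarc_sub (by linarith) hmO) (hN1' m (by rw [abs_of_nonneg (by omega)]; exact hmN))
  have h2 := h.mv_tr (n - m) h1
  rw [h.shift_back hN hN' hn hmn, zero_add] at h2
  refine ⟨(n - m) • α, 3 * r, mem_zm _, by linarith, r2, ?_, ?_, h2⟩
  · have := coe_mul_mem hr 3
    simpa using this
  · obtain ⟨t, ht, htm⟩ := hmO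
    refine (mem_arc r3).2 ⟨t, ht.1.le, by linarith [ht.2], ?_⟩
    have h3 : (t : S) = m • α := by
      have : (0 : S) + (t : S) = m • α := htm
      rwa [zero_add] at this
    rw [h3, sub_smul]
    abel

/-- everything away from `n α` fixes it -/
theorem Std.away (h : Std Y G θ α) {N : ℤ} (hN : 0 < N) (hN' : ∀ n, N ≤ |n| →
    θ (tr α) (X Y α n) = X Y α (n + 1) ∧ θ PCB.refl (X Y α n) = X Y α (-n)) {n : ℤ} (hn : N ≤ n)
    {ε : ℝ} (hε : 0 < ε) {W : Set S}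
    (hW : ∀ s : ℝ, -ε ≤ s → s < ε → n • α + (s : S) ∉ W) {v : Equiv.Perm S} (hv : v ∈ G)
    (sv : Sup W v) : θ v (X Y α n) = X Y α n := by
  by_contra hcon
  obtain ⟨a, l, ha, l0, l1, hl, hna, hmv⟩ := h.small hN hN' hn
    (show 0 < min (ε / 3) (1 / 3) by positivity)
  have l2 : 3 * l < ε := by
    have := min_le_left (ε / 3) (1 / 3)
    linarith
  have l3 : 3 * l ≤ 1 := by
    have := min_le_right (ε / 3) (1 / 3)
    linarith
  refine h.ex ha hl l0 l3 (B := W) ?_ hv sv hcon hmv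
  intro x hx
  obtain ⟨u, u0, u1, rfl⟩ := (mem_arc l3).1 hx
  obtain ⟨t, t0, t1, hta⟩ := (mem_arc (by linarith)).1 hna
  have h1 := hW (u - t) (by linarith) (by linarith)
  have h2 : n • α + ((u - t : ℝ) : S) = a + (u : S) := by
    rw [hta, AddCircle.coe_sub]
    abel
  rwa [h2] at h1

end Q78.CycF
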